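import Pool.Agent.Lib.MP_651af7_nt.Bx.Defs

/-! Primes of height at most one. -/

namespace Pool.Agent.Lib.MP_651af7_nt.Bx

open MvPolynomial Module

set_option linter.unusedSectionVars false

noncomputable section

variable {k : Type} [Field k]

/-- If `p ≠ ⊥` it contains a prime element `π` (`Ideal.IsPrime.exists_mem_prime_of_ne_bot`) and is
generated by it (height); `π` involves a variable `t₀` and so does every non-zero multiple (a model:
`val_var` in `Lib/MP_41050a_ag/NK/Val`, do not import); `j = t₀.succAbove`. -/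
theorem ht_poly {s : ℕ} (p : Ideal (MvPolynomial (Fin (s + 1)) k)) [p.IsPrime] (h : p.height ≤ 1) :
    ∃ j : Fin s → Fin (s + 1), AlgebraicIndependent k fun t => Ideal.Quotient.mk p (X (j t)) := by
  obtain ⟨t₀, ht⟩ : ∃ t₀, ∀ f ∈ p, f ≠ 0 → degreeOf t₀ f ≠ 0 := by
    by_cases hp : p = ⊥
    · exact ⟨0, fun f hf h0 => absurd (by simpa [hp] using hf) h0⟩
    obtain ⟨π, hπ, hpr⟩ := Ideal.IsPrime.exists_mem_prime_of_ne_bot ‹_› hp
    have h1 : p.height = 1 := le_antisymm h (Order.one_le_iff_ne_zero.2 fun h0 =>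
      hp (Ideal.height_eq_zero_iff_eq_bot.1 h0))
    have hs := p.eq_span_singleton_of_height_eq_one h1 hπ hpr
    obtain ⟨t₀, ht₀⟩ : ∃ t₀, degreeOf t₀ π ≠ 0 := by
      by_contra! hc
      have hC : π = C (coeff 0 π) := by
        refine totalDegree_eq_zero_iff_eq_C.1 ((totalDegree_eq_zero_iff _ _).2 fun m hm x => ?_)
        exact Nat.le_zero.1 ((hc x) ▸ monomial_le_degreeOf x hm)
      refine hpr.not_isUnit ?_
      rw [hC]
      refine (IsUnit.mk0 _ fun h0 => hpr.ne_zero ?_).map C
      rw [hC, h0, map_zero]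
    refine ⟨t₀, fun f hf h0 => ?_⟩
    rw [hs, Ideal.mem_span_singleton] at hf
    obtain ⟨c, rfl⟩ := hf
    rw [degreeOf_mul_eq (left_ne_zero_of_mul h0) (right_ne_zero_of_mul h0)]
    omega
  refine ⟨t₀.succAbove, algebraicIndependent_iff.2 fun f hf => ?_⟩
  have e : aeval (fun t => Ideal.Quotient.mk p (X (t₀.succAbove t))) f =
      Ideal.Quotient.mk p (rename t₀.succAbove f) := by
    have : aeval (fun t => Ideal.Quotient.mk p (X (t₀.succAbove t))) =
        (Ideal.Quotient.mkₐ k p).comp (rename t₀.succAbove) := by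
      ext t
      simp
    rw [this]
    rfl
  rw [e, Ideal.Quotient.eq_zero_iff_mem] at hf
  by_contra h0
  refine ht _ hf (fun h => h0 (rename_injective _ Fin.succAbove_right_injective
    (h.trans (map_zero _).symm))) ?_
  classical
  by_contra hd
  obtain ⟨i, -, hi⟩ := mem_vars_rename _ _ (mem_vars_iff_degreeOf_ne_zero.2 hd)
  exact Fin.succAbove_ne _ _ hi

/-- Noether normalisation (`exists_integral_inj_algHom_of_fg`), going down
(`Ideal.height_eq_height_add_of_liesOver_of_hasGoingDown`), `ht_poly`; the number of variables is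
at least `r + 1` (`AlgebraicIndependent.cardinalMk_le_trdeg`, `IsTranscendenceBasis`). -/
theorem ht_indep {B : Type} [CommRing B] [IsDomain B] [Algebra k B] [Algebra.FiniteType k B]
    (𝔭 : Ideal B) [𝔭.IsPrime] (h : 𝔭.height ≤ 1) {r : ℕ} {z : Fin (r + 1) → B}
    (hz : AlgebraicIndependent k z) :
    ∃ z' : Fin r → B, AlgebraicIndependent k fun t => Ideal.Quotient.mk 𝔭 (z' t) := by
  obtain ⟨s, g, hg, hi⟩ := exists_integral_inj_algHom_of_fg k B
  let _ : Algebra (MvPolynomial (Fin s) k) B := g.toRingHom.toAlgebra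
  have : IsScalarTower k (MvPolynomial (Fin s) k) B :=
    IsScalarTower.of_algebraMap_eq fun a => (g.commutes a).symm
  have : Algebra.IsIntegral (MvPolynomial (Fin s) k) B := ⟨hi⟩
  have : FaithfulSMul (MvPolynomial (Fin s) k) B :=
    (faithfulSMul_iff_algebraMap_injective _ _).2 hg
  have : IsNoetherianRing B := Algebra.FiniteType.isNoetherianRing k B
  have hs : r + 1 ≤ s := by
    have h1 := hz.cardinalMk_le_trdeg
    rw [← trdeg_add_eq k (MvPolynomial (Fin s) k), MvPolynomial.trdeg_of_isDomain,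
      trdeg_eq_zero (R := MvPolynomial (Fin s) k)] at h1
    simp only [Cardinal.mk_fin, Cardinal.lift_natCast, add_zero] at h1
    exact_mod_cast h1
  obtain ⟨s, rfl⟩ : ∃ s', s = s' + 1 := ⟨s - 1, by omega⟩
  set p := 𝔭.under (MvPolynomial (Fin (s + 1)) k) with hp
  have hh : p.height ≤ 1 := by
    refine le_trans ?_ h
    rw [Ideal.height_eq_height_add_of_liesOver_of_hasGoingDown p 𝔭]
    exact le_self_add
  obtain ⟨j, hj⟩ := ht_poly p hh
  let ι : Fin r → Fin s := Fin.castLE (by omega)
  refine ⟨fun t => g (X (j (ι t))), ?_⟩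
  have h2 := (hj.comp ι (Fin.castLE_injective _)).map'
    (f := Ideal.quotientMapₐ 𝔭 g (le_of_eq hp))
    (Ideal.quotientMap_injective' (H := le_of_eq hp) (le_of_eq hp.symm))
  exact h2

theorem dim2_sec [CharZero k] {R : Type} [CommRing R] [IsLocalRing R] [Algebra k R] :
    ∃ s : IsLocalRing.ResidueField R →ₐ[k] R ⧸ IsLocalRing.maximalIdeal R ^ 2, ∀ a b : R,
      s (IsLocalRing.residue R a) = Ideal.Quotient.mk _ b → a - b ∈ IsLocalRing.maximalIdeal R := by
  have hs : Algebra.FormallySmooth k (IsLocalRing.ResidueField R) := by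
    obtain ⟨s, hs⟩ := exists_isTranscendenceBasis k (IsLocalRing.ResidueField R)
    have := hs.isAlgebraic_field
    exact .of_algebraicIndependent_of_isSeparable hs.1
  let g : (R ⧸ IsLocalRing.maximalIdeal R ^ 2) →ₐ[k] IsLocalRing.ResidueField R :=
    Ideal.Quotient.liftₐ _ (IsScalarTower.toAlgHom k R _) fun a ha =>
      (IsLocalRing.residue_eq_zero_iff a).2 (Ideal.pow_le_self two_ne_zero ha)
  have hg : ∀ a, g (Ideal.Quotient.mk _ a) = IsLocalRing.residue R a := fun _ => rfl
  have h1 : Function.Surjective g := fun c => by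
    obtain ⟨a, rfl⟩ := IsLocalRing.residue_surjective c
    exact ⟨_, hg a⟩
  have h2 : IsNilpotent (RingHom.ker
      (g : (R ⧸ IsLocalRing.maximalIdeal R ^ 2) →+* IsLocalRing.ResidueField R)) := by
    refine ⟨2, (pow_two _).trans ?_⟩
    rw [Ideal.zero_eq_bot, eq_bot_iff, Ideal.mul_le]
    intro x hx y hy
    obtain ⟨x, rfl⟩ := Ideal.Quotient.mk_surjective x
    obtain ⟨y, rfl⟩ := Ideal.Quotient.mk_surjective y
    rw [Ideal.mem_bot, ← map_mul, Ideal.Quotient.eq_zero_iff_mem, pow_two]
    exact Ideal.mul_mem_mul ((IsLocalRing.residue_eq_zero_iff x).1 hx)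
      ((IsLocalRing.residue_eq_zero_iff y).1 hy)
  refine ⟨Algebra.FormallySmooth.liftOfSurjective (AlgHom.id k _) g h1 h2, fun a b h => ?_⟩
  have h3 := congrArg g h
  rw [Algebra.FormallySmooth.liftOfSurjective_apply, hg] at h3
  rw [← IsLocalRing.residue_eq_zero_iff, map_sub, sub_eq_zero]
  exact h3

/-- Let `s : κ →ₐ[k] R ⧸ 𝔪 ^ 2` be a section (`κ` is formally smooth over `k`:
`Algebra.FormallySmooth.of_perfectField` or `Av.trb_smooth` in `Av/TrB`;
`Algebra.FormallySmooth.liftOfSurjective`). Put `δ a = ℓ (class of a - s (residue a))`. -/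
theorem exists_der_cot [CharZero k] {R : Type} [CommRing R] [IsLocalRing R] [Algebra k R]
    (ℓ : Module.Dual (IsLocalRing.ResidueField R) (IsLocalRing.CotangentSpace R)) :
    ∃ δ : Derivation k R (IsLocalRing.ResidueField R), ∀ a : IsLocalRing.maximalIdeal R,
      δ a = ℓ ((IsLocalRing.maximalIdeal R).toCotangent a) := by
  obtain ⟨s, hs⟩ := dim2_sec (k := k) (R := R)
  choose σ hσ using fun a : R => Ideal.Quotient.mk_surjective (s (IsLocalRing.residue R a))
  let x : R → IsLocalRing.maximalIdeal R := fun a => ⟨a - σ a, hs a _ (hσ a).symm⟩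
  have hx : ∀ a, Ideal.Quotient.mk (IsLocalRing.maximalIdeal R ^ 2) (x a : R) =
      Ideal.Quotient.mk _ a - s (IsLocalRing.residue R a) := fun a => by
    rw [← hσ, ← map_sub]
  have key : ∀ (a : R) (y : IsLocalRing.maximalIdeal R),
      Ideal.Quotient.mk (IsLocalRing.maximalIdeal R ^ 2) (y : R) =
        Ideal.Quotient.mk _ a - s (IsLocalRing.residue R a) →
      (IsLocalRing.maximalIdeal R).toCotangent (x a) =
        (IsLocalRing.maximalIdeal R).toCotangent y := fun a y h => by
    rw [Ideal.toCotangent_eq, ← Ideal.Quotient.eq, hx, h]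
  have hl : ∀ (r : R) (y : IsLocalRing.CotangentSpace R), ℓ (r • y) = r • ℓ y := fun r y => by
    rw [← algebraMap_smul (IsLocalRing.ResidueField R) r y, map_smul, algebraMap_smul]
  let D : R →ₗ[k] IsLocalRing.ResidueField R :=
    { toFun := fun a => ℓ ((IsLocalRing.maximalIdeal R).toCotangent (x a))
      map_add' := fun a b => by
        rw [key (a + b) (x a + x b), map_add, map_add]
        rw [Submodule.coe_add, map_add, hx, hx, map_add, map_add, map_add]
        ring
      map_smul' := fun c a => by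
        rw [key (c • a) (algebraMap k R c • x a), map_smul, hl, algebraMap_smul, RingHom.id_apply]
        have h1 : s (IsLocalRing.residue R (algebraMap k R c)) =
            Ideal.Quotient.mk _ (algebraMap k R c) := s.commutes c
        rw [Submodule.coe_smul, smul_eq_mul, map_mul, hx, Algebra.smul_def, map_mul, map_mul,
          map_mul, h1]
        ring }
  refine ⟨Derivation.mk' D fun a b => ?_, fun a => ?_⟩
  · change ℓ ((IsLocalRing.maximalIdeal R).toCotangent (x (a * b))) =
      a • ℓ ((IsLocalRing.maximalIdeal R).toCotangent (x b)) +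
        b • ℓ ((IsLocalRing.maximalIdeal R).toCotangent (x a))
    rw [key (a * b) (a • x b + b • x a), map_add, map_add, map_smul, hl, map_smul, hl]
    have h0 : Ideal.Quotient.mk (IsLocalRing.maximalIdeal R ^ 2) ((x a : R) * x b) = 0 := by
      rw [Ideal.Quotient.eq_zero_iff_mem, pow_two]
      exact Ideal.mul_mem_mul (x a).2 (x b).2
    rw [map_mul, hx, hx] at h0
    rw [Submodule.coe_add, Submodule.coe_smul, Submodule.coe_smul, smul_eq_mul, smul_eq_mul,
      map_add, map_mul, map_mul, hx, hx, map_mul, map_mul, map_mul]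
    linear_combination h0
  · change ℓ ((IsLocalRing.maximalIdeal R).toCotangent (x a)) = _
    rw [key a a]
    rw [(IsLocalRing.residue_eq_zero_iff (a : R)).2 a.2, map_zero, sub_zero]

end

end Pool.Agent.Lib.MP_651af7_nt.Bx
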