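import Pool.Agent.Lib.MP_651af7_nt.Bx.Vec

/-! Birational maps and tangent spaces. -/

namespace Pool.Agent.Lib.MP_651af7_nt.Bx

open MvPolynomial Module Av

set_option linter.unusedSectionVars false

noncomputable section

variable {k : Type} [Field k] [CharZero k] {ι κ : Type} [Fintype ι] [Fintype κ]
  {F : Type} [Field F] [Algebra k F] {I : Ideal (MvPolynomial ι k)} {J : Ideal (MvPolynomial κ k)}
  {φ : κ → MvPolynomial ι k} {ψ : ι → MvPolynomial κ k} {x v : ι → F}

/-- The image of `I` generates a prime whose contraction is `I` (`trCw_mem`, as in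
`AV.mem_IK_iff`, or faithful flatness). -/
theorem Var.isPrime (h : Var I) : I.IsPrime := by
  have he : I = (I.map (MvPolynomial.map (algebraMap k (AlgebraicClosure k)))).comap
      (MvPolynomial.map (algebraMap k (AlgebraicClosure k))) := by
    refine le_antisymm Ideal.le_comap_map fun f hf => ?_
    obtain ⟨l, hl⟩ := Module.Projective.exists_dual_eq_one k
      (one_ne_zero (α := AlgebraicClosure k))
    have h1 := trCw_mem l (Ideal.mem_comap.1 hf)
    have h2 : trCw l (MvPolynomial.map (algebraMap k (AlgebraicClosure k)) f) = f := by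
      ext μ
      rw [coeff_trCw, coeff_map, Algebra.algebraMap_eq_smul_one, map_smul, hl, smul_eq_mul,
        mul_one]
    rwa [h2] at h1
  rw [he]
  have := h.prime
  exact Ideal.comap_isPrime _ _

theorem bir1_aeval {R : Type} [CommRing R] [Algebra k R] (x : ι → R) (P : MvPolynomial κ k) :
    aeval x (aeval φ P) = aeval (fun j => aeval x (φ j)) P :=
  DFunLike.congr_fun (comp_aeval φ (aeval x)) P

/-- The chain rule: `aeval (dw x v) ∘ φ = dw (φ x) (dφ v)`. -/
theorem dP_comp (x v : ι → F) (P : MvPolynomial κ k) : dP x v (aeval φ P) =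
    dP (fun j => aeval x (φ j)) (fun j => dP x v (φ j)) P := by
  have h : (fun j => aeval (dw x v) (φ j)) =
      dw (fun j => aeval x (φ j)) (fun j => dP x v (φ j)) :=
    funext fun j => TrivSqZeroExt.ext (fst_aeval_dw x v (φ j)) rfl
  rw [dP, bir1_aeval, h, dP]

/-- `dw x (c • x) = (1 + ε c) • dw x 0`, `aeval_mul_of_hom`. -/
theorem dP_self {P : MvPolynomial ι k} {d : ℕ} (hP : P.IsHomogeneous d) (x : ι → F) :
    dP x x P = d * aeval x P := by
  have h := congrArg (aeval x) hP.sum_X_mul_pderiv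
  rw [map_sum, map_nsmul, nsmul_eq_mul] at h
  rw [dP_eq_sum, ← h]
  exact Finset.sum_congr rfl fun a _ => by rw [map_mul, aeval_X, mul_comm]

theorem bir1_mem (hI : ∀ P ∈ I, ∀ d, homogeneousComponent d P ∈ I)
    (hv : ∀ P ∈ I, ∀ d, P.IsHomogeneous d → dP x v P = 0) : v ∈ tsp I x := by
  refine mem_tsp.2 fun P hP => ?_
  rw [← sum_homogeneousComponent P, dP, map_sum, TrivSqZeroExt.snd_sum]
  exact Finset.sum_eq_zero fun d _ => hv _ (hI P hP d) d (homogeneousComponent_isHomogeneous d P)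

theorem bir1_scale {P : MvPolynomial ι k} {d : ℕ} (hP : P.IsHomogeneous d) (c : F) (x v : ι → F) :
    c * dP (fun a => c * x a) v P = c ^ d * dP x v P := by
  have h : dw (fun a => c * x a) (c • v) = fun a => TrivSqZeroExt.inl c * dw x v a :=
    funext fun a => TrivSqZeroExt.ext (by simp) (by simp)
  rw [← dP_smul, dP, h, aeval_mul_of_hom hP, TrivSqZeroExt.inl_pow, DualNumber.snd_mul, dP]
  simp

theorem tsp_self (hI : ∀ P ∈ I, ∀ d, homogeneousComponent d P ∈ I)
    (hx : ∀ P ∈ I, aeval x P = 0) : x ∈ tsp I x :=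
  bir1_mem hI fun P hP d hd => by rw [dP_self hd, hx P hP, mul_zero]

/-- Reduce to forms; `dw (c • x) (c • v) = c • dw x v`. -/
theorem tsp_smul (hI : ∀ P ∈ I, ∀ d, homogeneousComponent d P ∈ I)
    (hx : ∀ P ∈ I, aeval x P = 0) {c : F} (hc : c ≠ 0) : tsp I (fun a => c * x a) = tsp I x := by
  have _ := hx
  ext v
  refine ⟨fun hv => bir1_mem hI fun P hP d hd => ?_, fun hv => bir1_mem hI fun P hP d hd => ?_⟩
  · have h := bir1_scale hd c x v
    rw [mem_tsp.1 hv P hP, mul_zero] at h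
    exact (mul_eq_zero.1 h.symm).resolve_left (pow_ne_zero d hc)
  · have h := bir1_scale hd c x v
    rw [mem_tsp.1 hv P hP, mul_zero] at h
    exact (mul_eq_zero.1 h).resolve_left hc

theorem Inv.zero (h : Inv I J φ ψ) (hx : ∀ P ∈ I, aeval x P = 0) :
    ∀ P ∈ J, aeval (fun j => aeval x (φ j)) P = 0 := fun P hP => by
  rw [← bir1_aeval, hx _ (h.map P hP)]

theorem Inv.tan (h : Inv I J φ ψ) (hv : v ∈ tsp I x) :
    (fun j => dP x v (φ j)) ∈ tsp J fun j => aeval x (φ j) :=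
  mem_tsp.2 fun P hP => by rw [← dP_comp, mem_tsp.1 hv _ (h.map P hP)]

theorem Inv.pt (h : Inv I J φ ψ) (h0 : x ≠ 0) (hx : ∀ P ∈ I, aeval x P = 0) {i : ι}
    (hi : aeval x (aeval φ (ψ i)) ≠ 0) :
    ∃ c : F, c ≠ 0 ∧ ∀ a, aeval (fun j => aeval x (φ j)) (ψ a) = c * x a := by
  have key : ∀ l, aeval x (aeval φ (ψ i)) * x l = aeval x (aeval φ (ψ l)) * x i := fun l => by
    have h1 := hx _ (h.id i l)
    rwa [map_sub, map_mul, map_mul, aeval_X, aeval_X, sub_eq_zero] at h1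
  have hxi : x i ≠ 0 := fun h1 => h0 (funext fun l => by
    have h2 := key l
    rw [h1, mul_zero] at h2
    exact (mul_eq_zero.1 h2).resolve_left hi)
  refine ⟨aeval x (aeval φ (ψ i)) / x i, div_ne_zero hi hxi, fun a => ?_⟩
  rw [← bir1_aeval, div_mul_eq_mul_div, key a, mul_div_cancel_right₀ _ hxi]

/-- With `G = ψ ∘ φ` one gets `dG v = t * b * G x` (`dP_comp`, `dP_smul`, `dP_self`);
differentiate `Inv.id` (`dP_mul_pol`). -/
theorem Inv.inj (h : Inv I J φ ψ) (h' : Inv J I ψ φ) (h0 : x ≠ 0) (hx : ∀ P ∈ I, aeval x P = 0)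
    {i : ι} (hi : aeval x (aeval φ (ψ i)) ≠ 0) (hv : v ∈ tsp I x) {t : F}
    (ht : ∀ j, dP x v (φ j) = t * aeval x (φ j)) : ∃ c : F, v = c • x := by
  obtain ⟨b, hb⟩ := h'.hom
  have hG : ∀ a, dP x v (aeval φ (ψ a)) = t * (b * aeval x (aeval φ (ψ a))) := fun a => by
    have e : (fun j => dP x v (φ j)) = t • fun j => aeval x (φ j) := funext ht
    rw [dP_comp, e, dP_smul, dP_self (hb a), comp_aeval_apply]
  have h1 : ∀ l, aeval x (aeval φ (ψ i)) * x l = aeval x (aeval φ (ψ l)) * x i := fun l => by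
    have := hx _ (h.id i l)
    rw [map_sub, map_mul, map_mul, aeval_X, aeval_X] at this
    exact sub_eq_zero.1 this
  have h2 : ∀ l, aeval x (aeval φ (ψ i)) * v l = aeval x (aeval φ (ψ l)) * v i := fun l => by
    have h3 : dP x v (aeval φ (ψ i) * X l - aeval φ (ψ l) * X i) = 0 := by
      rw [dP_eq_sum]
      exact hv _ (h.id i l)
    have h4 : dP x v (aeval φ (ψ i) * X l) - dP x v (aeval φ (ψ l) * X i) = 0 := by
      rw [← h3, dP, dP, dP, map_sub, TrivSqZeroExt.snd_sub]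
    rw [dP_mul_pol, dP_mul_pol, dP_X, dP_X, hG, hG, aeval_X, aeval_X] at h4
    linear_combination h4 - t * b * h1 l
  have hxi : x i ≠ 0 := fun e => h0 (funext fun l => by
    have := h1 l
    rw [e, mul_zero] at this
    exact (mul_eq_zero.1 this).resolve_left hi)
  refine ⟨v i / x i, funext fun l => mul_left_cancel₀ hi ?_⟩
  rw [Pi.smul_apply, smul_eq_mul, mul_left_comm, h1, h2]
  field_simp

/-- With `G = φ ∘ ψ`, `G j ∉ J`: `H(G) * X j ^ d = H(X j * G) ≡ H(G j * X) = G j ^ d * H` modulo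
`J` (evaluate in the quotient ring, `aeval_mul_of_hom`). -/
theorem Inv.pull (hJ : J.IsPrime) (h' : Inv J I ψ φ) {H : MvPolynomial κ k} {d : ℕ}
    (hH : H.IsHomogeneous d) (h0 : H ∉ J) : aeval φ H ∉ I := by
  intro hI
  obtain ⟨j, hj⟩ := h'.ne
  have h1 : aeval (fun l => Ideal.Quotient.mkₐ k J (aeval ψ (φ l))) H = 0 := by
    rw [← comp_aeval_apply, ← comp_aeval_apply]
    exact Ideal.Quotient.eq_zero_iff_mem.2 (h'.map _ hI)
  have h2 : (fun l => Ideal.Quotient.mkₐ k J (X j) * Ideal.Quotient.mkₐ k J (aeval ψ (φ l))) =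
      fun l => Ideal.Quotient.mkₐ k J (aeval ψ (φ j)) * Ideal.Quotient.mkₐ k J (X l) := by
    funext l
    rw [← map_mul, ← map_mul, mul_comm]
    exact (Ideal.Quotient.eq.2 (h'.id j l)).symm
  have h3 := aeval_mul_of_hom hH (Ideal.Quotient.mkₐ k J (X j))
    fun l => Ideal.Quotient.mkₐ k J (aeval ψ (φ l))
  rw [h2, aeval_mul_of_hom hH, h1, mul_zero, ← comp_aeval_apply, aeval_X_left_apply, ← map_pow,
    ← map_mul] at h3
  rcases hJ.mem_or_mem (Ideal.Quotient.eq_zero_iff_mem.1 h3) with h4 | h4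
  · exact hj (hJ.mem_of_pow_mem _ h4)
  · exact h0 h4

/-- The image of a frame. If `s • φ x + ∑ τ j • dφ (w j) = 0` then `v = ∑ τ j • w j` is a multiple
of `x` by `Inv.inj`, so `τ = 0`; `φ x ≠ 0` is a hypothesis. -/
theorem Inv.indep (h : Inv I J φ ψ) (h' : Inv J I ψ φ) (hx : ∀ P ∈ I, aeval x P = 0) {i : ι}
    (hi : aeval x (aeval φ (ψ i)) ≠ 0) (h1 : (fun j => aeval x (φ j)) ≠ 0) {r : ℕ}
    {w : Fin r → ι → F} (hw : ∀ l, w l ∈ tsp I x)
    (hl : LinearIndependent F (Fin.cons x w : Fin (r + 1) → ι → F)) :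
    LinearIndependent F (Fin.cons (fun j => aeval x (φ j)) fun l j => dP x (w l) (φ j) :
      Fin (r + 1) → κ → F) := by
  have h0 : x ≠ 0 := hl.ne_zero 0
  rw [Fintype.linearIndependent_iff] at hl ⊢
  intro g hg
  rw [Fin.sum_univ_succ] at hg
  simp only [Fin.cons_zero, Fin.cons_succ] at hg
  have hs : ∀ (P : MvPolynomial ι k) (s : Finset (Fin r)),
      dP x (∑ l ∈ s, g l.succ • w l) P = ∑ l ∈ s, g l.succ * dP x (w l) P := fun P s => by
    classical
    induction s using Finset.induction_on with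
    | empty => simp only [Finset.sum_empty, dP_zero]
    | insert a s ha ih => rw [Finset.sum_insert ha, Finset.sum_insert ha, dP_lin, ih]
  obtain ⟨c, hc⟩ := h.inj h' h0 hx hi
    (Submodule.sum_mem _ fun l (_ : l ∈ Finset.univ) => Submodule.smul_mem _ (g l.succ) (hw l))
    (t := -g 0) fun j => by
      have := congrFun hg j
      simp only [Pi.add_apply, Pi.smul_apply, Finset.sum_apply, smul_eq_mul, Pi.zero_apply] at this
      rw [hs]
      linear_combination this
  have h2 : ∀ l : Fin r, g l.succ = 0 := fun l => hl (Fin.cons (-c) fun l => g l.succ) (by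
    rw [Fin.sum_univ_succ]
    simp only [Fin.cons_zero, Fin.cons_succ]
    rw [hc, neg_smul, neg_add_cancel]) l.succ
  simp only [h2, zero_smul, Finset.sum_const_zero, add_zero] at hg
  exact Fin.cases ((smul_eq_zero.1 hg).resolve_right h1) h2

theorem bir3_ext {M : Type} [AddCommGroup M] [Module F M] {y : M} (hy : y ≠ 0) (r : ℕ)
    (hr : r + 1 ≤ finrank F M) :
    ∃ w : Fin r → M, LinearIndependent F (Fin.cons y w : Fin (r + 1) → M) := by
  induction r with
  | zero => exact ⟨Fin.elim0, (linearIndependent_unique_iff (ι := Fin 1)).2 hy⟩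
  | succ r ih =>
    obtain ⟨w, hw⟩ := ih (by omega)
    obtain ⟨z, hz⟩ := exists_linearIndependent_snoc_of_lt_finrank hw hr
    exact ⟨Fin.snoc w z, by rwa [Fin.cons_snoc_eq_snoc_cons]⟩

/-- Extend `x` to a basis `Fin.cons x w` of the tangent space, `Inv.indep`, `Inv.tan`,
`tsp_self`. -/
theorem Inv.rank_le (hI : ∀ P ∈ I, ∀ d, homogeneousComponent d P ∈ I)
    (hJ : ∀ P ∈ J, ∀ d, homogeneousComponent d P ∈ J) (h : Inv I J φ ψ) (h' : Inv J I ψ φ)
    (h0 : x ≠ 0) (hx : ∀ P ∈ I, aeval x P = 0) {i : ι} (hi : aeval x (aeval φ (ψ i)) ≠ 0)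
    (h1 : (fun j => aeval x (φ j)) ≠ 0) :
    finrank F (tsp I x) ≤ finrank F (tsp J fun j => aeval x (φ j)) := by
  have hx0 : (⟨x, tsp_self hI hx⟩ : tsp I x) ≠ 0 := fun e => h0 (congrArg Subtype.val e)
  obtain ⟨r, hr⟩ := Nat.exists_eq_succ_of_ne_zero
    ((finrank_pos_iff_exists_ne_zero (R := F)).2 ⟨_, hx0⟩).ne'
  obtain ⟨w, hw⟩ := bir3_ext hx0 r hr.ge
  have h2 := h.indep h' hx hi h1 (w := fun l => w l) (fun l => (w l).2) (by
    have h3 := hw.map' (tsp I x).subtype (Submodule.ker_subtype _)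
    rwa [Fin.comp_cons] at h3)
  have h3 : LinearIndependent F (Fin.cons ⟨_, tsp_self hJ (h.zero hx)⟩ fun l => ⟨_, h.tan (w l).2⟩ :
      Fin (r + 1) → tsp J fun j => aeval x (φ j)) :=
    LinearIndependent.of_comp (tsp J _).subtype (by rwa [Fin.comp_cons])
  simpa [hr] using h3.fintype_card_le_finrank

/-- `Inv.rank_le` twice, `Inv.pt`, `tsp_smul`. With `ψ y = c • x` one has `φ (ψ y) = c ^ a • y`, so
`y ≠ 0`. -/
theorem Inv.rank (hI : ∀ P ∈ I, ∀ d, homogeneousComponent d P ∈ I)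
    (hJ : ∀ P ∈ J, ∀ d, homogeneousComponent d P ∈ J) (h : Inv I J φ ψ) (h' : Inv J I ψ φ)
    (h0 : x ≠ 0) (hx : ∀ P ∈ I, aeval x P = 0) {i : ι} (hi : aeval x (aeval φ (ψ i)) ≠ 0) {j : κ}
    (hj : aeval (fun j => aeval x (φ j)) (aeval ψ (φ j)) ≠ 0) :
    (fun j => aeval x (φ j)) ≠ 0 ∧
      finrank F (tsp I x) = finrank F (tsp J fun j => aeval x (φ j)) := by
  obtain ⟨c, hc, h1⟩ := h.pt h0 hx hi
  obtain ⟨a, ha⟩ := h.hom
  have h2 : (fun j => aeval x (φ j)) ≠ 0 := fun e => hj (by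
    rw [comp_aeval_apply, funext h1, aeval_mul_of_hom (ha j), congrFun e j, Pi.zero_apply,
      mul_zero])
  refine ⟨h2, (h.rank_le hI hJ h' h0 hx hi h2).antisymm ?_⟩
  have h3 := h'.rank_le hJ hI h h2 (h.zero hx) hj fun e => h0 (funext fun a =>
    (mul_eq_zero.1 ((h1 a).symm.trans (congrFun e a))).resolve_left hc)
  rwa [funext h1, tsp_smul hI hx hc] at h3

end

end Pool.Agent.Lib.MP_651af7_nt.Bx
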