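import Mathlib

/-! Projective varieties, birational maps, the canonical height and local heights. -/

namespace Pool.Agent.Lib.MP_651af7_nt.Bx

open MvPolynomial

noncomputable section

variable {k : Type} [Field k] {ι κ : Type}

/-- `I` is homogeneous and prime over the algebraic closure. -/
structure Var (I : Ideal (MvPolynomial ι k)) : Prop where
  hom : ∀ P ∈ I, ∀ d, homogeneousComponent d P ∈ I
  prime : (I.map (MvPolynomial.map (algebraMap k (AlgebraicClosure k)))).IsPrime

/-- The tangent space at `x` of the affine cone. -/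
def tsp [Fintype ι] (I : Ideal (MvPolynomial ι k)) {F : Type} [Field F] [Algebra k F] (x : ι → F) :
    Submodule F (ι → F) where
  carrier := {v | ∀ P ∈ I, ∑ a, aeval x (pderiv a P) * v a = 0}
  zero_mem' := fun _ _ => by simp
  add_mem' := fun {v w} hv hw P hP => by
    simp only [Pi.add_apply, mul_add, Finset.sum_add_distrib, hv P hP, hw P hP, add_zero]
  smul_mem' := fun c v hv P hP => by
    simp only [Pi.smul_apply, smul_eq_mul, mul_left_comm _ c, ← Finset.mul_sum, hv P hP, mul_zero]

/-- The variety is smooth of dimension `g`. -/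
def Smooth [Fintype ι] (I : Ideal (MvPolynomial ι k)) (g : ℕ) : Prop :=
  ∀ x : ι → AlgebraicClosure k, x ≠ 0 → (∀ P ∈ I, aeval x P = 0) →
    Module.finrank (AlgebraicClosure k) (tsp I x) = g + 1

/-- The forms `φ` give a rational map from the variety of `I` to that of `J`, and `ψ ∘ φ` is the
identity. -/
structure Inv (I : Ideal (MvPolynomial ι k)) (J : Ideal (MvPolynomial κ k))
    (φ : κ → MvPolynomial ι k) (ψ : ι → MvPolynomial κ k) : Prop where
  hom : ∃ a, ∀ j, (φ j).IsHomogeneous a
  map : ∀ P ∈ J, aeval φ P ∈ I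
  ne : ∃ i, aeval φ (ψ i) ∉ I
  id : ∀ i l, aeval φ (ψ i) * X l - aeval φ (ψ l) * X i ∈ I

/-- The two varieties are birational over `k`. -/
def Birat (I : Ideal (MvPolynomial ι k)) (J : Ideal (MvPolynomial κ k)) : Prop :=
  ∃ φ ψ, Inv I J φ ψ ∧ Inv J I ψ φ

/-- The maximal minors. -/
def minors {R : Type} [CommRing R] {g : ℕ} (b : Fin (g + 1) → ι → R) : (Fin (g + 1) → ι) → R :=
  fun S => (Matrix.of fun j l => b j (S l)).det

/-- The height of the canonical class by the Gauss map: `b` is a basis of the tangent space of the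
cone at `x`. -/
def hK [NumberField k] {g : ℕ} (x : ι → k) (b : Fin (g + 1) → ι → k) : ℝ :=
  Height.logHeight (minors b) - (g + 1) * Height.logHeight x

/-- The local height at `v` of the closed subscheme given by the forms `D j` of degree `e`. -/
def lam {α : Type} (v : AbsoluteValue k ℝ) (D : α → MvPolynomial ι k) (e : ℕ) (x : ι → k) : ℝ :=
  Real.log ((⨆ a, v (x a)) ^ e / ⨆ j, v (eval x (D j)))

end

end Pool.Agent.Lib.MP_651af7_nt.Bx
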