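import Pool.Agent.Lib.MP_651af7_nt.Bx.Defs
import Pool.Agent.Lib.MP_651af7_nt.Av.Fin

/-! Local heights. -/

namespace Pool.Agent.Lib.MP_651af7_nt.Bx

open MvPolynomial Module Av Height NumberField

set_option linter.unusedSectionVars false

noncomputable section

variable {k : Type} [Field k] [NumberField k] {ι κ α : Type} [Fintype ι] [Fintype κ] [Fintype α]
  {ψ : κ → MvPolynomial ι k} {b e : ℕ} {D : α → MvPolynomial κ k} {ε : ℝ}

/-- As in the proof of `vojta` in `Av/Fin` (`AV.prox_part`). -/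
theorem prox_sum (A : AV k ι) {R : MvPolynomial ι k} (hR : R.IsHomogeneous e)
    (S : Finset (FinitePlace k)) (hε : 0 < ε) : ∃ C : ℝ, ∀ y : ι → k, y ≠ 0 →
      (∀ P ∈ A.I, eval y P = 0) → eval y R ≠ 0 →
      ∑ w : InfinitePlace k, w.mult * Real.log ((⨆ a, w.1 (y a)) ^ e / w.1 (eval y R)) +
        ∑ w ∈ S, Real.log ((⨆ a, w.1 (y a)) ^ e / w.1 (eval y R)) ≤ ε * logHeight y + C := by
  obtain ⟨N, hN⟩ : ∃ N : ℝ, N = ∑ w : InfinitePlace k, (w.mult : ℝ) + S.card := ⟨_, rfl⟩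
  have hN0 : 0 ≤ N := by rw [hN]; positivity
  have hε' : 0 < ε / (N + 1) := by positivity
  choose c hc using fun w : InfinitePlace k => A.prox_part hR (v := w.1)
    (Or.inl (mem_multisetInfinitePlace.2 w.isInfinitePlace)) hε'
  choose c' hc' using fun w : FinitePlace k => A.prox_part hR (v := w.1) (Or.inr w.2) hε'
  refine ⟨∑ w, w.mult * c w + ∑ w ∈ S, c' w, fun x x0 xz xR => ?_⟩
  have e2 := Finset.sum_le_sum fun w (_ : w ∈ Finset.univ) =>
    mul_le_mul_of_nonneg_left (hc w x x0 xz xR) (w.mult.cast_nonneg (α := ℝ))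
  have e3 := Finset.sum_le_sum fun w (_ : w ∈ S) => hc' w x x0 xz xR
  simp only [mul_add, Finset.sum_add_distrib, ← Finset.sum_mul, Finset.sum_const,
    nsmul_eq_mul] at e2 e3
  have e4 : N * (ε / (N + 1) * logHeight x) ≤ ε * logHeight x := by
    rw [← mul_assoc]
    refine mul_le_mul_of_nonneg_right ?_ (logHeight_nonneg x)
    rw [mul_div_assoc', div_le_iff₀ (by positivity)]
    nlinarith
  rw [hN, add_mul] at e4
  rw [hN] at e2 e3
  linarith

/-- The triangle inequality. -/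
theorem sup_eval_le (v : AbsoluteValue k ℝ) (hψ : ∀ i, (ψ i).IsHomogeneous b) : ∃ c : ℝ, 0 < c ∧
    ∀ y : ι → k, ⨆ i, v (eval y (ψ i)) ≤ c * (⨆ a, v (y a)) ^ b := by
  choose c hc using fun i => (⟨_, v.eval_mvPolynomial_le (hψ i)⟩ :
    ∃ c : ℝ, ∀ y : ι → k, v (eval y (ψ i)) ≤ c * (⨆ a, v (y a)) ^ b)
  have h0 : 0 ≤ ∑ i, |c i| := Finset.sum_nonneg fun i _ => abs_nonneg _
  refine ⟨∑ i, |c i| + 1, by linarith, fun y => ?_⟩
  have hy : 0 ≤ (⨆ a, v (y a)) ^ b := pow_nonneg (Real.iSup_nonneg fun a => v.nonneg _) b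
  refine Real.iSup_le (fun i => (hc i y).trans (mul_le_mul_of_nonneg_right ?_ hy)) (by positivity)
  have := Finset.single_le_sum (fun i _ => abs_nonneg (c i)) (Finset.mem_univ i)
  linarith [le_abs_self (c i)]

theorem loc_eval {P : MvPolynomial κ k} (hP : P.IsHomogeneous e) {y : ι → k} {x : κ → k} {c : k}
    (h : ∀ i, aeval y (ψ i) = c * x i) : eval y (aeval ψ P) = c ^ e * eval x P := by
  rw [← eval_mul_of_hom hP, ← aeval_eq_eval, ← aeval_eq_eval, comp_aeval_apply]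
  simp only [h]

/-- `eval y (aeval ψ (D j)) = c ^ e * eval x (D j)` and `v c * |x| ≤ c₀ * |y| ^ b`. -/
theorem lam_le (v : AbsoluteValue k ℝ) (hψ : ∀ i, (ψ i).IsHomogeneous b)
    (hD : ∀ j, (D j).IsHomogeneous e) : ∃ C : ℝ, ∀ (y : ι → k) (x : κ → k) (c : k) (j : α), x ≠ 0 →
      c ≠ 0 → (∀ i, aeval y (ψ i) = c * x i) → eval x (D j) ≠ 0 → lam v D e x ≤
        Real.log ((⨆ a, v (y a)) ^ (b * e) / v (eval y (aeval ψ (D j)))) + C := by
  obtain ⟨c₀, h0, h1⟩ := sup_eval_le v hψ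
  refine ⟨Real.log (c₀ ^ e), fun y x c j hx hc h hj => ?_⟩
  obtain ⟨a, ha⟩ := Function.ne_iff.1 hx
  have h2 : 0 < ⨆ a, v (x a) :=
    (v.pos ha).trans_le (le_ciSup (f := fun a => v (x a)) (Finite.bddAbove_range _) a)
  have h3 := h1 y
  simp only [← aeval_eq_eval, h, iSup_mul_left] at h3
  have h4 := v.pos hc
  have h5 := v.pos hj
  have h6 := le_ciSup (f := fun j => v (eval x (D j))) (Finite.bddAbove_range _) j
  have h7 : 0 < (⨆ a, v (y a)) ^ b := (mul_pos_iff_of_pos_left h0).1 ((mul_pos h4 h2).trans_le h3)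
  rw [loc_eval (hD j) h, map_mul, map_pow, pow_mul, ← Real.log_mul (by positivity) (by positivity)]
  refine Real.log_le_log (div_pos (pow_pos h2 e) (h5.trans_le h6))
    ((div_le_div_of_nonneg_left (pow_pos h2 e).le h5 h6).trans ?_)
  rw [← mul_div_mul_left _ _ (pow_pos h4 e).ne', div_mul_eq_mul_div, ← mul_pow, ← mul_pow,
    mul_comm _ c₀]
  gcongr

/-- `prox_sum` for each `aeval ψ (D j)` (`IsHomogeneous.aeval`), `lam_le` for each place. -/
theorem lam_sum (A : AV k ι) (hψ : ∀ i, (ψ i).IsHomogeneous b) (hD : ∀ j, (D j).IsHomogeneous e)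
    (S : Finset (FinitePlace k)) (hε : 0 < ε) : ∃ C : ℝ, ∀ (y : ι → k) (x : κ → k) (c : k), y ≠ 0 →
      (∀ P ∈ A.I, eval y P = 0) → x ≠ 0 → c ≠ 0 → (∀ i, aeval y (ψ i) = c * x i) →
      (fun j => eval x (D j)) ≠ 0 →
      ∑ w : InfinitePlace k, w.mult * lam w.1 D e x + ∑ w ∈ S, lam w.1 D e x ≤
        ε * logHeight y + C := by
  choose C hC using fun j => prox_sum A ((hD j).aeval ψ hψ) S hε
  choose c₁ h₁ using fun v : AbsoluteValue k ℝ => lam_le v hψ hD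
  refine ⟨∑ j, |C j| + (∑ w : InfinitePlace k, w.mult * c₁ w.1 + ∑ w ∈ S, c₁ w.1),
    fun y x c y0 yz x0 c0 h hD0 => ?_⟩
  obtain ⟨j, hj⟩ := Function.ne_iff.1 hD0
  have e1 := hC j y y0 yz (by
    rw [loc_eval (hD j) h]
    exact mul_ne_zero (pow_ne_zero e c0) hj)
  have e2 := Finset.sum_le_sum fun (w : InfinitePlace k) (_ : w ∈ Finset.univ) =>
    mul_le_mul_of_nonneg_left (h₁ w.1 y x c j x0 c0 h hj) (w.mult.cast_nonneg (α := ℝ))
  have e3 := Finset.sum_le_sum fun w (_ : w ∈ S) => h₁ w.1 y x c j x0 c0 h hj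
  have e4 := Finset.single_le_sum (fun i _ => abs_nonneg (C i)) (Finset.mem_univ j)
  simp only [mul_add, Finset.sum_add_distrib] at e2 e3
  linarith [le_abs_self (C j)]

end

end Pool.Agent.Lib.MP_651af7_nt.Bx
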