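import Pool.Agent.Lib.MP_651af7_nt.Bx.Bir

/-! Composition of birational maps. -/

namespace Pool.Agent.Lib.MP_651af7_nt.Bx

open MvPolynomial Module Av

set_option linter.unusedSectionVars false

noncomputable section

variable {k : Type} [Field k] [CharZero k] {ι κ ν : Type} [Fintype ι] [Fintype κ] [Fintype ν]
  {I : Ideal (MvPolynomial ι k)} {J : Ideal (MvPolynomial κ k)} {K : Ideal (MvPolynomial ν k)}
  {φ : κ → MvPolynomial ι k} {ψ : ι → MvPolynomial κ k} {φ' : ν → MvPolynomial κ k}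
  {ψ' : κ → MvPolynomial ν k}

theorem trans_aev {σ τ R : Type} [CommRing R] [Algebra k R] (x : σ → R) (f : τ → MvPolynomial σ k)
    (P : MvPolynomial τ k) : aeval x (aeval f P) = aeval (fun j => aeval x (f j)) P := by
  rw [← AlgHom.comp_apply, comp_aeval]

theorem Inv.trans (hI : I.IsPrime) (hJ : J.IsPrime) (h0 : ∃ j, X j ∉ J) (h1 : Inv I J φ ψ)
    (h2 : Inv J I ψ φ) (h3 : Inv J K φ' ψ') (h4 : Inv K J ψ' φ') :
    Inv I K (fun l => aeval φ (φ' l)) fun i => aeval ψ' (ψ i) := by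
  obtain ⟨a, ha⟩ := h1.hom
  obtain ⟨a', ha'⟩ := h3.hom
  obtain ⟨b, hb⟩ := h2.hom
  obtain ⟨b', hb'⟩ := h4.hom
  obtain ⟨j, hj⟩ := h3.ne
  obtain ⟨j₀, hj₀⟩ := h0
  let F := FractionRing (MvPolynomial ι k ⧸ I)
  let x : ι → F := fun i => algebraMap (MvPolynomial ι k ⧸ I) F (Ideal.Quotient.mk I (X i))
  have hx : ∀ P, aeval x P = 0 ↔ P ∈ I := fun P => by
    have e : aeval x = (IsScalarTower.toAlgHom k _ F).comp (Ideal.Quotient.mkₐ k I) :=
      algHom_ext fun i => by simp [x]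
    rw [e, AlgHom.comp_apply, IsScalarTower.coe_toAlgHom', FaithfulSMul.algebraMap_eq_zero_iff,
      Ideal.Quotient.mkₐ_eq_mk, Ideal.Quotient.eq_zero_iff_mem]
  have hy := h1.zero fun P => (hx P).2
  have hn : ∀ H d, H.IsHomogeneous d → H ∉ J → aeval (fun j => aeval x (φ j)) H ≠ 0 :=
    fun H d e1 e2 e3 => h2.pull hJ e1 e2 ((hx _).1 ((trans_aev x φ H).trans e3))
  have y0 : (fun j => aeval x (φ j)) ≠ 0 := fun e =>
    hn _ _ (isHomogeneous_X k j₀) hj₀ (by simpa using congrFun e j₀)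
  obtain ⟨c, hc, e⟩ := h3.pt y0 hy (hn _ _ ((hb' j).aeval φ' ha') hj)
  have key : ∀ i, aeval x (aeval (fun l => aeval φ (φ' l)) (aeval ψ' (ψ i))) =
      c ^ b * aeval x (aeval φ (ψ i)) := fun i => by
    simp only [trans_aev x, trans_aev _ ψ', e, aeval_mul_of_hom (hb i)]
  refine ⟨⟨_, fun l => (ha' l).aeval φ ha⟩, fun P hP => ?_, ?_, fun i l => (hx _).1 ?_⟩
  · rw [← trans_aev]
    exact h1.map _ (h3.map P hP)
  · obtain ⟨i, hi⟩ := h1.ne
    exact ⟨i, fun e1 => mul_ne_zero (pow_ne_zero b hc) (mt (hx _).1 hi) (key i ▸ (hx _).2 e1)⟩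
  · have e1 := (hx _).2 (h1.id i l)
    simp only [map_sub, map_mul, key] at e1 ⊢
    rw [mul_assoc, mul_assoc, ← mul_sub, e1, mul_zero]

theorem Birat.symm (h : Birat I J) : Birat J I :=
  let ⟨φ, ψ, h1, h2⟩ := h
  ⟨ψ, φ, h2, h1⟩

theorem Birat.trans (hI : I.IsPrime) (hJ : J.IsPrime) (hK : K.IsPrime) (h0 : ∃ j, X j ∉ J)
    (h : Birat I J) (h' : Birat J K) : Birat I K :=
  let ⟨_, _, h1, h2⟩ := h
  let ⟨_, _, h3, h4⟩ := h'
  ⟨_, _, h1.trans hI hJ h0 h2 h3 h4, h4.trans hK hJ h0 h3 h2 h1⟩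

end

end Pool.Agent.Lib.MP_651af7_nt.Bx
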