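import Pool.Agent.Lib.MP_651af7_nt.Bx.Wr
import Pool.Agent.Lib.MP_651af7_nt.Bx.Loc
import Pool.Agent.Lib.MP_651af7_nt.Bx.Trans

/-! Vojta's inequality on varieties birational to an abelian variety. -/

namespace Pool.Agent.Lib.MP_651af7_nt.Bx

open MvPolynomial Module Av Height NumberField

set_option linter.unusedSectionVars false

noncomputable section

variable {k : Type} [Field k] [NumberField k] {ι κ : Type} [Fintype ι] [Fintype κ] {r g : ℕ}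
  {A : AV k ι} {σ : Fin r → ι → k} {ψ : κ → MvPolynomial ι k} {φ : ι → MvPolynomial κ k} {ε : ℝ}
  {I : Ideal (MvPolynomial κ k)}

/-- For `r = 0` the left side is zero (`minors_zero`; `Θ = 1`, `exists_frame`). Otherwise
`exists_rep`, `AV.gcd_part` with `ε / (r + 1)`, `hK_le`. -/
theorem canon (hσ : A.LieBasis σ) {b : ℕ} (hψ : ∀ i, (ψ i).IsHomogeneous b) (h0 : ∃ i, ψ i ∉ A.I)
    (hε : 0 < ε) : ∃ (Θ : MvPolynomial ι k) (t : ℕ) (C : ℝ), Θ.IsHomogeneous t ∧ Θ ∉ A.I ∧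
      ∀ y : ι → k, y ≠ 0 → (∀ P ∈ A.I, aeval y P = 0) → aeval y Θ ≠ 0 →
      (fun i => aeval y (ψ i)) ≠ 0 → ∃ w : Fin r → ι → k, (∀ j, w j ∈ A.Tan y) ∧
        LinearIndependent k (Fin.cons y w : Fin (r + 1) → ι → k) ∧ (minors (fr ψ y w) ≠ 0 →
          hK (fun i => aeval y (ψ i)) (fr ψ y w) ≤ ε * logHeight y + C) := by
  rcases Nat.eq_zero_or_pos r with rfl | hr
  · refine ⟨1, 0, 0, isHomogeneous_one _ _, fun h => A.isPrime.ne_top ((Ideal.eq_top_iff_one _).2 h),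
      fun y hy0 hy _ _ => ?_⟩
    obtain ⟨_, w, _, _, hw, hl, _⟩ := exists_frame hσ hy0 hy
    refine ⟨w, hw, hl, fun _ => ?_⟩
    have h1 := minors_zero (fun i => aeval y (ψ i)) fun j i => dP y (w j) (ψ i)
    have h2 := mul_nonneg hε.le (logHeight_nonneg y)
    rw [hK, fr, h1]
    push_cast
    linarith
  · obtain ⟨T, _, d, Ψ, hΨ, hc⟩ := exists_rep hσ hr hψ h0
    have hr1 : (0 : ℝ) < r + 1 := by positivity
    obtain ⟨Θ, n, C, h1, h2, h3⟩ := A.gcd_part (fun p : T × κ => Ψ p.1 p.2)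
      (fun p => (hΨ p.1).hom p.2) hc (div_pos hε hr1)
    obtain ⟨C', h4⟩ := hK_le hσ hΨ
    refine ⟨Θ, n, (r + 1) * C + C', h1, h2, fun y hy0 hy hΘ hx => ?_⟩
    obtain ⟨h5, h6⟩ := h3 y hy0 hy hΘ
    obtain ⟨w, hw, hl, h7⟩ := h4 y hy0 hy hx h5
    refine ⟨w, hw, hl, fun hm => (h7 hm).trans ?_⟩
    have h8 := mul_le_mul_of_nonneg_left h6 hr1.le
    have h9 : (r + 1 : ℝ) * (ε / (r + 1) * logHeight y + C) = ε * logHeight y + (r + 1) * C := by
      field_simp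
    linarith

/-- `Inv.rank` and `rank_tan` for the image of `x` in the algebraic closure (`aeval_alg`). -/
theorem dim_eq (hσ : A.LieBasis σ) (hI : Var I) (hs : Smooth I g) (h : Inv I A.I φ ψ)
    (h' : Inv A.I I ψ φ) {x : κ → k} (h0 : x ≠ 0) (hx : ∀ P ∈ I, aeval x P = 0) {i : κ}
    (hi : aeval x (aeval φ (ψ i)) ≠ 0) {j : ι}
    (hj : aeval (fun j => aeval x (φ j)) (aeval ψ (φ j)) ≠ 0) : g = r := by
  have e : ∀ P : MvPolynomial κ k, aeval (fun a => algebraMap k (AlgebraicClosure k) (x a)) P =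
      algebraMap k _ (aeval x P) := fun P => aeval_algebraMap_apply _ x P
  have inj := (algebraMap k (AlgebraicClosure k)).injective
  have h1 : (fun a => algebraMap k (AlgebraicClosure k) (x a)) ≠ 0 := fun hc =>
    h0 (funext fun a => inj ((congrFun hc a).trans (map_zero _).symm))
  have h2 : ∀ P ∈ I, aeval (fun a => algebraMap k (AlgebraicClosure k) (x a)) P = 0 :=
    fun P hP => by rw [e, hx P hP, map_zero]
  obtain ⟨h3, h4⟩ := h.rank hI.hom A.hom h' h1 h2 (i := i)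
    (by rw [e]; exact (map_ne_zero _).2 hi) (j := j)
    (by
      simp only [e]
      rw [aeval_alg]
      exact (map_ne_zero _).2 hj)
  rw [hs _ h1 h2, tsp_eq, rank_tan hσ h3 (h.zero h2)] at h4
  omega

/-- `Inv.pt` gives `ψ y = c • x`. The frame `fr ψ y w` is independent (`Inv.indep` for `h'`) and
lies in `tsp I x` (`Inv.tan`, `tsp_self`, `tsp_smul`), which has dimension `r + 1` (`Inv.rank`,
`rank_tan`); `minors_prop`, `minors_ne_zero`. -/
theorem hK_eq (hσ : A.LieBasis σ) (hI : Var I) (h : Inv I A.I φ ψ) (h' : Inv A.I I ψ φ) {x : κ → k}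
    (h0 : x ≠ 0) (hx : ∀ P ∈ I, aeval x P = 0) {i : κ} (hi : aeval x (aeval φ (ψ i)) ≠ 0) {j : ι}
    (hj : aeval (fun j => aeval x (φ j)) (aeval ψ (φ j)) ≠ 0) {y : ι → k}
    (hy : y = fun j => aeval x (φ j)) {w : Fin r → ι → k} (hw : ∀ l, w l ∈ A.Tan y)
    (hl : LinearIndependent k (Fin.cons y w : Fin (r + 1) → ι → k)) {β : Fin (r + 1) → κ → k}
    (h1 : LinearIndependent k β) (h2 : ∀ l, β l ∈ tsp I x) :
    minors (fr ψ y w) ≠ 0 ∧ hK x β = hK (fun i => aeval y (ψ i)) (fr ψ y w) := by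
  obtain ⟨h3, h4⟩ := h.rank hI.hom A.hom h' h0 hx hi hj
  obtain ⟨c, hc, hp⟩ := h.pt h0 hx hi
  have hz := h.zero hx
  rw [← hy] at h3 h4 hp hz hj
  rw [tsp_eq, rank_tan hσ h3 hz] at h4
  have e : (fun i => aeval y (ψ i)) = fun a => c * x a := funext hp
  have e' : (fun i => aeval y (ψ i)) = c • x := e
  have h5 : (fun i => aeval y (ψ i)) ≠ 0 := by
    rw [e']
    exact smul_ne_zero hc h0
  have hw' : ∀ l, w l ∈ tsp A.I y := fun l => by rw [tsp_eq]; exact hw l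
  have h6 : LinearIndependent k (fr ψ y w) := h'.indep h hz hj h5 hw' hl
  have ht : tsp I (fun i => aeval y (ψ i)) = tsp I x := by rw [e]; exact tsp_smul hI.hom hx hc
  have h7 : ∀ l, fr ψ y w l ∈ tsp I x := fun l => by
    rw [← ht]
    refine Fin.cases ?_ (fun l => ?_) l
    · exact tsp_self hI.hom (h'.zero hz)
    · exact h'.tan (hw' l)
  obtain ⟨c', hc', h8⟩ := minors_prop h4 h6 h1 h7 h2
  refine ⟨minors_ne_zero h6, ?_⟩
  rw [hK, hK, h8, e', logHeight_smul_eq_logHeight _ hc', logHeight_smul_eq_logHeight _ hc]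

/-- Let `φ` have degree `a`, `ε' = ε / (2 * (a + 1))`, `Θ₀` from `canon`; the form is
`aeval φ (Θ₀ * aeval ψ (φ j)) * aeval φ (ψ i)` with `i`, `j` from `Inv.ne` (`Inv.pull`,
`Var.isPrime`, `AV.tr_prime`). Some `ψ i ∉ A.I`, since otherwise `aeval φ (ψ i) ∈ I` by
`Inv.map`. Use `lam_sum`, `logHeight_eval_le'` for `φ`; after fixing `x` substitute `g = r`
(`dim_eq`) and apply `hK_eq`. -/
theorem main (A : AV k ι) (hI : Var I) (hs : Smooth I g) (hb : Birat I A.I) (hε : 0 < ε) :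
    ∃ (Θ : MvPolynomial κ k) (t : ℕ), Θ.IsHomogeneous t ∧ Θ ∉ I ∧
      ∀ (m e : ℕ) (D : Fin m → MvPolynomial κ k) (S : Finset (FinitePlace k)),
      (∀ j, (D j).IsHomogeneous e) → ∃ C : ℝ, ∀ x : κ → k, x ≠ 0 → (∀ P ∈ I, eval x P = 0) →
        eval x Θ ≠ 0 → (fun j => eval x (D j)) ≠ 0 → ∀ β : Fin (g + 1) → κ → k,
        LinearIndependent k β → (∀ l, β l ∈ tsp I x) →
        (∑ w : InfinitePlace k, w.mult * lam w.1 D e x + ∑ w ∈ S, lam w.1 D e x) + hK x β ≤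
          ε * logHeight x + C := by
  obtain ⟨φ, ψ, h, h'⟩ := hb
  obtain ⟨r, σ, hσ⟩ := exists_lieBasis A
  obtain ⟨a, ha⟩ := h.hom
  obtain ⟨b, hb⟩ := h'.hom
  obtain ⟨i, hi⟩ := h.ne
  obtain ⟨j, hj⟩ := h'.ne
  have hε' : 0 < ε / (2 * (a + 1)) := by positivity
  obtain ⟨Θ, t, C₁, h1, h2, h3⟩ := canon hσ hb ⟨i, fun e => hi (h.map _ e)⟩ hε'
  have h4 := h1.mul ((ha j).aeval ψ hb)
  obtain ⟨C₂, h5⟩ := logHeight_eval_le' ha
  refine ⟨aeval φ (Θ * aeval ψ (φ j)) * aeval φ (ψ i), _, (h4.aeval φ ha).mul ((hb i).aeval φ ha),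
    fun e => (hI.isPrime.mem_or_mem e).elim (h'.pull A.tr_prime h4 fun e' =>
      (A.tr_prime.mem_or_mem e').elim h2 hj) hi, fun m e D S hD => ?_⟩
  obtain ⟨C₃, h6⟩ := lam_sum A hb hD S hε'
  refine ⟨C₃ + C₁ + 2 * (ε / (2 * (a + 1))) * C₂, fun x x0 xz xΘ xD β β1 β2 => ?_⟩
  rw [← aeval_eq_eval, map_mul, trans_aev, map_mul, mul_ne_zero_iff, mul_ne_zero_iff] at xΘ
  have xz' : ∀ P ∈ I, aeval x P = 0 := xz
  obtain rfl := dim_eq hσ hI hs h h' x0 xz' xΘ.2 xΘ.1.2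
  obtain ⟨c, hc, e1⟩ := h.pt x0 xz' xΘ.2
  have y0 := (h.rank hI.hom A.hom h' x0 xz' xΘ.2 xΘ.1.2).1
  have yz := h.zero xz'
  obtain ⟨l, hl⟩ := Function.ne_iff.1 x0
  obtain ⟨w, w1, w2, w3⟩ := h3 _ y0 yz xΘ.1.1
    (Function.ne_iff.2 ⟨l, (e1 l).trans_ne (mul_ne_zero hc hl)⟩)
  obtain ⟨e2, e3⟩ := hK_eq hσ hI h h' x0 xz' xΘ.2 xΘ.1.2 rfl w1 w2 β1 β2
  have e4 := w3 e2
  have e5 := h6 _ x c y0 yz x0 hc e1 xD
  have e6 : logHeight (fun j => aeval x (φ j)) ≤ C₂ + a * logHeight x := h5 x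
  have e7 := mul_le_mul_of_nonneg_left e6 hε'.le
  have e8 : 2 * (ε / (2 * (a + 1)) * (a * logHeight x)) ≤ ε * logHeight x := by
    rw [← mul_assoc, ← mul_assoc]
    refine mul_le_mul_of_nonneg_right ?_ (logHeight_nonneg x)
    rw [mul_div_assoc', div_mul_eq_mul_div, div_le_iff₀ (by positivity)]
    nlinarith
  rw [e3]
  linarith

end

end Pool.Agent.Lib.MP_651af7_nt.Bx
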