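import Pool.Agent.Lib.MP_651af7_nt.Bx.Defs

/-! Maximal minors. -/

namespace Pool.Agent.Lib.MP_651af7_nt.Bx

open MvPolynomial Module

set_option linter.unusedSectionVars false

noncomputable section

variable {k : Type} [Field k] {ι κ : Type} {g : ℕ} {R S : Type} [CommRing R] [CommRing S]

theorem map_minors (f : R →+* S) (b : Fin (g + 1) → ι → R) (T : Fin (g + 1) → ι) :
    f (minors b T) = minors (fun j a => f (b j a)) T := by
  exact f.map_det _

theorem minors_mul (B : Matrix (Fin (g + 1)) (Fin (g + 1)) R) (b : Fin (g + 1) → ι → R)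
    (T : Fin (g + 1) → ι) :
    minors (fun l a => ∑ j, B l j * b j a) T = B.det * minors b T := by
  rw [minors, minors, ← Matrix.det_mul]
  rfl

/-- `minors_mul` with a lower triangular matrix (`Matrix.det_of_lowerTriangular`). -/
theorem minors_tri (s t : R) (ν : Fin g → R) (x : ι → R) (u : Fin g → ι → R)
    (T : Fin (g + 1) → ι) :
    minors (Fin.cons (fun a => s * x a) fun j a => t * u j a + ν j * x a) T =
      s * t ^ g * minors (Fin.cons x u) T := by
  let B : Matrix (Fin (g + 1)) (Fin (g + 1)) R := .of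
    (Fin.cons (Fin.cons s 0) fun j => Fin.cons (ν j) (Matrix.diagonal (fun _ => t) j))
  have h1 : B.det = s * t ^ g := by
    have h2 : B.submatrix Fin.succ (Fin.succAbove 0) = Matrix.diagonal fun _ => t := rfl
    rw [Matrix.det_succ_row_zero, Fin.sum_univ_succ, h2, Matrix.det_diagonal]
    simp [B]
  rw [← h1, ← minors_mul]
  congr 1
  funext l a
  refine Fin.cases ?_ (fun j => ?_) l
  · simp [B, Fin.sum_univ_succ]
  · simp [B, Fin.sum_univ_succ, Matrix.diagonal_apply, add_comm]

/-- Expand the determinant (`Matrix.det_apply'`, `IsHomogeneous.prod`). -/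
theorem minors_hom {b : Fin (g + 1) → ι → MvPolynomial κ k} {δ : Fin (g + 1) → ℕ}
    (h : ∀ j a, (b j a).IsHomogeneous (δ j)) (T : Fin (g + 1) → ι) :
    (minors b T).IsHomogeneous (∑ j, δ j) := by
  rw [minors, ← Matrix.det_transpose, Matrix.det_apply']
  refine IsHomogeneous.sum _ _ _ fun σ _ => ?_
  rw [← zero_add (∑ j, δ j), ← map_intCast (C : k →+* MvPolynomial κ k)]
  exact (isHomogeneous_C _ _).mul (IsHomogeneous.prod _ _ _ fun j _ => h j _)

/-- If the rows are independent the columns span, so some `g + 1` columns form a basis. A model: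
`mn_ne_zero` in `Lib/MP_41050a_ag/NK/Plk` (do not import). -/
theorem minors_ne_zero [Fintype ι] {b : Fin (g + 1) → ι → k} (h : LinearIndependent k b) :
    minors b ≠ 0 := by
  intro h0
  have h1 : (Matrix.of b).rank = g + 1 :=
    (LinearIndependent.rank_matrix (M := Matrix.of b) h).trans (Fintype.card_fin _)
  obtain ⟨τ, a, ha, hs, hl⟩ := exists_linearIndependent' k (Matrix.of b).col
  have := Finite.of_injective a ha
  have := Fintype.ofFinite τ
  rw [Matrix.rank_eq_finrank_span_cols, ← hs, finrank_span_eq_card hl] at h1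
  let e := (Fintype.equivFinOfCardEq h1).symm
  have h2 : LinearIndependent k (Matrix.of fun j l => b j (a (e l))).col := hl.comp e e.injective
  exact ((Matrix.isUnit_iff_isUnit_det _).1 (Matrix.linearIndependent_cols_iff_isUnit.1 h2)).ne_zero
    (congrFun h0 fun l => a (e l))

/-- Both families are bases of `U`; `minors_mul`. -/
theorem minors_prop [Fintype ι] {U : Submodule k (ι → k)} (hU : finrank k U = g + 1)
    {b b' : Fin (g + 1) → ι → k} (h : LinearIndependent k b) (h' : LinearIndependent k b')
    (hb : ∀ j, b j ∈ U) (hb' : ∀ j, b' j ∈ U) : ∃ c : k, c ≠ 0 ∧ minors b' = c • minors b := by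
  have h2 : Submodule.span k (Set.range b) = U :=
    Submodule.eq_of_le_of_finrank_eq (Submodule.span_le.2 (by rintro _ ⟨l, rfl⟩; exact hb l))
      (by rw [finrank_span_eq_card h, hU, Fintype.card_fin])
  have h3 (l) : ∃ c : Fin (g + 1) → k, ∑ j, c j • b j = b' l :=
    (Submodule.mem_span_range_iff_exists_fun k).1 (h2 ▸ hb' l)
  choose B hB using h3
  have h5 : minors b' = (Matrix.of B).det • minors b := by
    funext T
    rw [Pi.smul_apply, smul_eq_mul, ← minors_mul]
    congr 1
    funext l i
    rw [← hB]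
    simp [Finset.sum_apply]
  exact ⟨_, fun h6 => minors_ne_zero h' (by rw [h5, h6, zero_smul]), h5⟩

/-- `logHeight_comp_equiv` for `Equiv.funUnique`. -/
theorem minors_zero [NumberField k] [Fintype ι] (x : ι → k) (u : Fin 0 → ι → k) :
    Height.logHeight (minors (Fin.cons x u : Fin (0 + 1) → ι → k)) = Height.logHeight x := by
  refine Eq.trans ?_ (Height.logHeight_comp_equiv (Equiv.funUnique (Fin 1) ι) x)
  congr 1
  funext T
  exact Matrix.det_fin_one _

end

end Pool.Agent.Lib.MP_651af7_nt.Bx
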