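import Pool.Agent.Lib.MP_651af7_nt.Bx.Dim
import Pool.Agent.Lib.MP_651af7_nt.Bx.Vec

/-! A rational map from an abelian variety is defined in codimension one. -/

namespace Pool.Agent.Lib.MP_651af7_nt.Bx

open MvPolynomial Module Av

set_option linter.unusedSectionVars false

noncomputable section

variable {k : Type} [Field k] [CharZero k] {ι κ : Type} [Fintype ι] [Fintype κ] {r : ℕ}
  {A : AV k ι} {σ : Fin r → ι → k}

theorem rep1_prime (A : AV k ι) : A.I.IsPrime := by
  have h := A.prime k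
  have e : (MvPolynomial.map (algebraMap k k) : MvPolynomial ι k →+* MvPolynomial ι k) =
      RingHom.id _ := RingHom.ext fun p => MvPolynomial.map_id p
  rwa [e, Ideal.map_id] at h

theorem rep1_ev {ι R F : Type} [CommRing R] [CommRing F] [Algebra k R] [Algebra R F] [Algebra k F]
    [IsScalarTower k R F] (x : ι → R) (P : MvPolynomial ι k) :
    aeval (fun a => algebraMap R F (x a)) P = algebraMap R F (aeval x P) :=
  aeval_algebraMap_apply F x P

theorem rep1_chain {R F : Type} [CommRing R] [CommRing F] [Algebra k R] [Algebra R F] [Algebra k F]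
    [IsScalarTower k R F] (δ : Derivation k R F) (x : ι → R) (P : MvPolynomial ι k) :
    dP (fun a => algebraMap R F (x a)) (fun a => δ (x a)) P = δ (aeval x P) := by
  induction P using MvPolynomial.induction_on with
  | C a => rw [dP_C, aeval_C, Derivation.map_algebraMap]
  | add p q hp hq => rw [dP_add_pol, hp, hq, map_add, map_add]
  | mul_X p t hp =>
    rw [dP_mul_pol, hp, dP_X, map_mul, Derivation.leibniz, aeval_X, aeval_X,
      rep1_ev, Algebra.smul_def, Algebra.smul_def, mul_comm (algebraMap R F (x t))]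

theorem rep1_cot (hσ : A.LieBasis σ) {R : Type} [CommRing R] [IsLocalRing R] [IsNoetherianRing R]
    [Algebra k R] {x : ι → R} (hx : ∀ P ∈ A.I, aeval x P = 0) {a : ι}
    (ha : x a ∉ IsLocalRing.maximalIdeal R)
    (hg : ∀ t : R, ∃ P Q : MvPolynomial ι k, IsUnit (aeval x Q) ∧ t * aeval x Q = aeval x P)
    {z : Fin r → R}
    (hz : AlgebraicIndependent k fun t => algebraMap R (IsLocalRing.ResidueField R) (z t)) :
    finrank (IsLocalRing.ResidueField R) (IsLocalRing.CotangentSpace R) ≤ 1 := by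
  classical
  by_contra hn
  have h2 : 2 ≤ finrank (IsLocalRing.ResidueField R) (IsLocalRing.CotangentSpace R) := by omega
  let b := finBasis (IsLocalRing.ResidueField R) (IsLocalRing.CotangentSpace R)
  choose δ hδ using fun i : Fin 2 => exists_der_cot (k := k) (b.coord (Fin.castLE h2 i))
  choose m hm using fun i : Fin 2 =>
    (IsLocalRing.maximalIdeal R).toCotangent_surjective (b (Fin.castLE h2 i))
  choose D hD using fun t : Fin r => exists_derivation hz (Pi.single t 1)
  let E : Fin 2 ⊕ Fin r → Derivation k R (IsLocalRing.ResidueField R) :=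
    Sum.elim δ fun t => (D t).compAlgebraMap R
  have hy0 : (fun c => algebraMap R (IsLocalRing.ResidueField R) (x c)) ≠ 0 := fun e =>
    ha ((IsLocalRing.residue_eq_zero_iff _).mp (congrFun e a))
  have hy : ∀ P ∈ A.I, aeval (fun c => algebraMap R (IsLocalRing.ResidueField R) (x c)) P = 0 :=
    fun P hP => by rw [rep1_ev, hx P hP, map_zero]
  let w : Fin 2 ⊕ Fin r → A.Tan fun c => algebraMap R (IsLocalRing.ResidueField R) (x c) :=
    fun i => ⟨fun c => E i (x c), fun P hP => by rw [rep1_chain, hx P hP, map_zero]⟩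
  have hw : LinearIndependent (IsLocalRing.ResidueField R) w := by
    refine Fintype.linearIndependent_iff.mpr fun g hg0 => ?_
    have hs : ∀ t, (∑ i, g i • E i) t = ∑ i, g i * E i t := fun t =>
      (congrFun (map_sum Derivation.coeFnAddMonoidHom (fun i => g i • E i) Finset.univ) t).trans
        ((Finset.sum_apply _ _ _).trans (Finset.sum_congr rfl fun _ _ => rfl))
    have h3 : (fun c => (∑ i, g i • E i) (x c)) = 0 := funext fun c => by
      have := congrFun (congrArg Subtype.val hg0) c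
      rw [Submodule.coe_sum, Finset.sum_apply] at this
      exact (hs _).trans this
    have h4 : ∀ P : MvPolynomial ι k, (∑ i, g i • E i) (aeval x P) = 0 := fun P => by
      rw [← rep1_chain, h3, dP_zero]
    have h5 : ∀ t, ∑ i, g i * E i t = 0 := fun t => by
      obtain ⟨P, Q, hQ, e⟩ := hg t
      have h6 := h4 P
      rw [← e, Derivation.leibniz, h4 Q, smul_zero, zero_add, hQ.smul_eq_zero] at h6
      exact (hs t).symm.trans h6
    have h7 : ∀ i, g (.inl i) = 0 := fun i => by
      have h6 := h5 (m i)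
      have h8 : algebraMap R (IsLocalRing.ResidueField R) (m i) = 0 :=
        (IsLocalRing.residue_eq_zero_iff _).mpr (m i).2
      have h10 : ∀ j, E (.inl j) (m i) = if i = j then 1 else 0 := fun j => by
        rw [show E (.inl j) = δ j from rfl, hδ, hm, Basis.coord_apply, Basis.repr_self,
          Finsupp.single_apply]
        simp only [Fin.castLE_inj]
      have h11 : ∀ t, E (.inr t) (m i) = 0 := fun t => (congrArg (D t) h8).trans (map_zero _)
      simpa only [Fintype.sum_sum_type, h10, h11, mul_zero, Finset.sum_const_zero, add_zero,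
        mul_ite, mul_one, Finset.sum_ite_eq, Finset.mem_univ, if_true] using h6
    rintro (i | s)
    · exact h7 i
    · have h10 : ∀ t, E (.inr t) (z s) = if s = t then 1 else 0 := fun t =>
        (hD t s).trans (Pi.single_apply _ _ _)
      simpa only [Fintype.sum_sum_type, h7, h10, zero_mul, mul_zero, Finset.sum_const_zero,
        zero_add, mul_ite, mul_one, Finset.sum_ite_eq, Finset.mem_univ, if_true] using h5 (z s)
  have h9 := hw.fintype_card_le_finrank
  rw [rank_tan hσ hy0 hy] at h9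
  simp at h9
  omega

theorem rep1_loc (hσ : A.LieBasis σ) {B : Type} [CommRing B] [IsDomain B] [Algebra k B]
    [Algebra.FiniteType k B] (π : MvPolynomial ι k →ₐ[k] B) (hπ : Function.Surjective π)
    (hI : ∀ P ∈ A.I, π P = 0) (𝔭 : Ideal B) [𝔭.IsPrime] (h : 𝔭.height ≤ 1) {z : Fin (r + 1) → B}
    (hz : AlgebraicIndependent k z) {a : ι} (ha : π (X a) ∉ 𝔭) :
    PreValuationRing (Localization.AtPrime 𝔭) := by
  have := Algebra.FiniteType.isNoetherianRing k B
  obtain ⟨z', hz'⟩ := ht_indep 𝔭 h hz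
  have hf : ∀ P, aeval (fun a => algebraMap B (Localization.AtPrime 𝔭) (π (X a))) P =
      algebraMap B (Localization.AtPrime 𝔭) (π P) := fun P => by
    rw [rep1_ev, aeval_unique π]
    simp [Function.comp_def]
  have h1 := rep1_cot hσ (x := fun a => algebraMap B (Localization.AtPrime 𝔭) (π (X a))) (a := a)
    (z := fun t => algebraMap B (Localization.AtPrime 𝔭) (z' t))
    (fun P hP => by rw [hf, hI P hP, map_zero])
    (fun e => ha ((IsLocalization.AtPrime.to_map_mem_maximal_iff _ 𝔭 _).mp e)) (fun t => ?_) ?_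
  · have h2 : ValuationRing (Localization.AtPrime 𝔭) :=
      ((tfae_of_isNoetherianRing_of_isLocalRing_of_isDomain _).out 5 1).mp h1
    exact h2.toPreValuationRing
  · obtain ⟨⟨p, s⟩, e⟩ := IsLocalization.surj 𝔭.primeCompl t
    obtain ⟨P, hP⟩ := hπ p
    obtain ⟨Q, hQ⟩ := hπ s.1
    exact ⟨P, Q, by rw [hf, hQ]; exact IsLocalization.map_units _ s, by rw [hf, hf, hP, hQ, e]⟩
  · refine algebraicIndependent_iff.mpr fun p hp => algebraicIndependent_iff.mp hz' p ?_
    rw [rep1_ev, rep1_ev] at hp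
    have h3 := (IsLocalization.AtPrime.to_map_mem_maximal_iff _ 𝔭 _).mp
      ((IsLocalRing.residue_eq_zero_iff _).mp hp)
    exact (rep1_ev (F := B ⧸ 𝔭) z' p).trans (Ideal.Quotient.eq_zero_iff_mem.mpr h3)

theorem rep1_X (hr : 0 < r) {B : Type} [CommRing B] [IsDomain B] [Algebra k B]
    [Algebra.FiniteType k B] (π : MvPolynomial ι k →ₐ[k] B) (hπ : Function.Surjective π)
    (𝔭 : Ideal B) [𝔭.IsPrime] (h : 𝔭.height ≤ 1) {z : Fin (r + 1) → B}
    (hz : AlgebraicIndependent k z) : ∃ a, π (X a) ∉ 𝔭 := by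
  by_contra hn
  push Not at hn
  obtain ⟨z', hz'⟩ := ht_indep 𝔭 h hz
  obtain ⟨P, hP⟩ := hπ (z' ⟨0, hr⟩)
  have h1 : (Ideal.Quotient.mkₐ k 𝔭).comp π = aeval 0 :=
    algHom_ext fun a => by simpa using Ideal.Quotient.eq_zero_iff_mem.mpr (hn a)
  have h2 : Ideal.Quotient.mk 𝔭 (π P) = _ := (DFunLike.congr_fun h1 P).trans (aeval_zero P)
  refine hz'.transcendental ⟨0, hr⟩ ?_
  rw [← hP, h2]
  exact isAlgebraic_algebraMap _

/-- Let `R` be the local ring, `κ` its residue field, `y a` the residue of `X a`. The map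
`δ ↦ (δ (X a))` from `Derivation k R κ` to `A.Tan y` (dimension `r + 1`, `rank_tan`) is injective.
If the cotangent space had two independent forms, these (`exists_der_cot`) and the `r` derivations
of `κ` dual to the elements of `ht_indep` (`exists_indep`, `exists_derivation`), composed with the
residue map, would be `r + 2` independent derivations. Conclude with
`tfae_of_isNoetherianRing_of_isLocalRing_of_isDomain`. -/
theorem val_at (hσ : A.LieBasis σ) (𝔭 : Ideal (MvPolynomial ι k ⧸ A.I)) [𝔭.IsPrime]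
    (h : 𝔭.height ≤ 1) {a : ι} (ha : Ideal.Quotient.mk A.I (X a) ∉ 𝔭) :
    PreValuationRing (Localization.AtPrime 𝔭) := by
  have := rep1_prime A
  obtain ⟨z, hz⟩ := exists_indep hσ
  exact rep1_loc hσ (Ideal.Quotient.mkₐ k A.I) (Ideal.Quotient.mkₐ_surjective k A.I)
    (fun P hP => Ideal.Quotient.eq_zero_iff_mem.mpr hP) 𝔭 h hz ha

/-- Otherwise the quotient by `𝔭` is algebraic over `k`, against `ht_indep`. -/
theorem exists_X (hσ : A.LieBasis σ) (hr : 0 < r) (𝔭 : Ideal (MvPolynomial ι k ⧸ A.I)) [𝔭.IsPrime]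
    (h : 𝔭.height ≤ 1) : ∃ a, Ideal.Quotient.mk A.I (X a) ∉ 𝔭 := by
  have := rep1_prime A
  obtain ⟨z, hz⟩ := exists_indep hσ
  exact rep1_X hr (Ideal.Quotient.mkₐ k A.I) (Ideal.Quotient.mkₐ_surjective k A.I) 𝔭 h hz

/-- `ψ'` is a tuple of forms of degree `e` proportional to `ψ`. -/
structure Prp (J : Ideal (MvPolynomial ι k)) (ψ ψ' : κ → MvPolynomial ι k) (e : ℕ) : Prop where
  hom : ∀ i, (ψ' i).IsHomogeneous e
  prp : ∀ i l, ψ' i * ψ l - ψ' l * ψ i ∈ J

theorem rep2_min {L : Type*} [CommMonoid L] [PreValuationRing L] (f : κ → L) (s : Finset κ)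
    (hs : s.Nonempty) : ∃ i₀, ∀ i ∈ s, f i₀ ∣ f i := by
  induction hs using Finset.Nonempty.cons_induction with
  | singleton a => exact ⟨a, fun i hi => by rw [Finset.mem_singleton.1 hi]⟩
  | cons a s ha hs ih =>
    obtain ⟨j, hj⟩ := ih
    rcases ValuationRing.dvd_total (f a) (f j) with h | h
    · refine ⟨a, fun i hi => ?_⟩
      rcases Finset.mem_cons.1 hi with rfl | hi
      · exact dvd_rfl
      · exact h.trans (hj i hi)
    · refine ⟨j, fun i hi => ?_⟩
      rcases Finset.mem_cons.1 hi with rfl | hi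
      · exact h
      · exact hj i hi

theorem rep2_comp (P : MvPolynomial ι k) {Q : MvPolynomial ι k} {b : ℕ} (hQ : Q.IsHomogeneous b)
    (e : ℕ) : homogeneousComponent (e + b) (P * Q) = homogeneousComponent e P * Q := by
  have h : ∀ d, homogeneousComponent (e + b) (homogeneousComponent d P * Q) =
      if d = e then homogeneousComponent d P * Q else 0 := fun d => by
    rw [homogeneousComponent_of_mem ((homogeneousComponent_isHomogeneous d P).mul hQ)]
    by_cases hd : d = e
    · rw [if_pos hd, if_pos (by rw [hd])]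
    · rw [if_neg hd, if_neg (by omega)]
  conv_lhs => rw [← sum_homogeneousComponent P, Finset.sum_mul, map_sum]
  simp only [h]
  rw [Finset.sum_ite_eq']
  split_ifs with he
  · rfl
  · rw [homogeneousComponent_eq_zero _ _ (by simpa using he), zero_mul]

/-- Take `i₀` such that `ψ i₀` divides all `ψ i` in the local ring; clear denominators:
`c * ψ i - β i * ψ i₀ ∈ J` with `c` outside the prime; replace `c` and `β i` by their components of
a degree `e` in which `c` is outside the prime. -/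
theorem rep_at {J : Ideal (MvPolynomial ι k)} [J.IsPrime]
    (hJ : ∀ P ∈ J, ∀ d, homogeneousComponent d P ∈ J) (𝔭 : Ideal (MvPolynomial ι k ⧸ J))
    [𝔭.IsPrime] (hv : PreValuationRing (Localization.AtPrime 𝔭)) {ψ : κ → MvPolynomial ι k} {b : ℕ}
    (hψ : ∀ i, (ψ i).IsHomogeneous b) (h0 : ∃ i, ψ i ∉ J) :
    ∃ ψ' e, Prp J ψ ψ' e ∧ ∃ i, Ideal.Quotient.mk J (ψ' i) ∉ 𝔭 := by
  have hp : J.IsPrime := inferInstance
  obtain ⟨i₁, hi₁⟩ := h0
  obtain ⟨i₀, hi₀⟩ := rep2_min (fun i => algebraMap (MvPolynomial ι k ⧸ J) (Localization.AtPrime 𝔭)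
    (Ideal.Quotient.mk J (ψ i))) Finset.univ ⟨i₁, Finset.mem_univ _⟩
  choose u hu using fun i => hi₀ i (Finset.mem_univ i)
  obtain ⟨c, hc⟩ := IsLocalization.exist_integer_multiples_of_finite 𝔭.primeCompl u
  choose β hβ using hc
  have hinj : Function.Injective (algebraMap (MvPolynomial ι k ⧸ J) (Localization.AtPrime 𝔭)) :=
    IsLocalization.injective (Localization.AtPrime 𝔭) 𝔭.primeCompl_le_nonZeroDivisors
  obtain ⟨C, hC⟩ := Ideal.Quotient.mk_surjective (c : MvPolynomial ι k ⧸ J)
  choose B hB using fun i => Ideal.Quotient.mk_surjective (β i)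
  have h1 : ∀ i, C * ψ i - B i * ψ i₀ ∈ J := fun i => by
    rw [← Ideal.Quotient.eq, map_mul, map_mul, hC, hB]
    apply hinj
    rw [map_mul, map_mul, hβ, hu i, Algebra.smul_def]
    ring
  obtain ⟨e, he⟩ : ∃ e, Ideal.Quotient.mk J (homogeneousComponent e C) ∉ 𝔭 := by
    by_contra hn
    apply c.2
    rw [← hC, ← sum_homogeneousComponent C, map_sum]
    exact 𝔭.sum_mem fun d _ => not_not.1 fun h => hn ⟨d, h⟩
  have h2 : ∀ i, homogeneousComponent e C * ψ i - homogeneousComponent e (B i) * ψ i₀ ∈ J :=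
    fun i => by
      have := hJ _ (h1 i) (e + b)
      rwa [map_sub, rep2_comp _ (hψ i), rep2_comp _ (hψ i₀)] at this
  have h3 : ψ i₀ ∉ J := fun h => by
    have h4 : homogeneousComponent e C * ψ i₁ ∈ J := by
      simpa using J.add_mem (h2 i₁) (J.mul_mem_left (homogeneousComponent e (B i₁)) h)
    rcases hp.mem_or_mem h4 with h5 | h5
    · exact he (by rw [Ideal.Quotient.eq_zero_iff_mem.2 h5]; exact 𝔭.zero_mem)
    · exact hi₁ h5
  refine ⟨fun i => homogeneousComponent e (B i), e,
    ⟨fun i => homogeneousComponent_isHomogeneous e _, fun i l => ?_⟩, i₀, ?_⟩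
  · refine (hp.mem_or_mem (x := ψ i₀) ?_).resolve_left h3
    have := J.sub_mem (J.mul_mem_left (ψ i) (h2 l)) (J.mul_mem_left (ψ l) (h2 i))
    refine (congrArg (· ∈ J) ?_).mp this
    ring
  · have h4 : homogeneousComponent e C - homogeneousComponent e (B i₀) ∈ J :=
      (hp.mem_or_mem (y := ψ i₀) (by rw [sub_mul]; exact h2 i₀)).resolve_right h3
    rw [← Ideal.Quotient.eq.2 h4]
    exact he

/-- Finitely many proportional tuples `ψ t` of degrees `e t` generate the ideal of the entries of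
all of them (Noetherian). Put `d = sup e`, `Ψ (t, a) = X a ^ (d + 1 - e t) * ψ t`. A minimal prime
of height at most one misses some `X a` (`exists_X`), so it contains the entries of all
proportional tuples, against `val_at` and `rep_at`. -/
theorem exists_rep (hσ : A.LieBasis σ) (hr : 0 < r) {ψ : κ → MvPolynomial ι k} {b : ℕ}
    (hψ : ∀ i, (ψ i).IsHomogeneous b) (h0 : ∃ i, ψ i ∉ A.I) :
    ∃ (T : Type) (_ : Fintype T) (d : ℕ) (Ψ : T → κ → MvPolynomial ι k),
      (∀ t, Prp A.I ψ (Ψ t) (d + 1)) ∧ 2 ≤ ((Ideal.span (Set.range fun p : T × κ => Ψ p.1 p.2)).map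
        (Ideal.Quotient.mk A.I)).height := by
  obtain ⟨s, hs, hsp⟩ := (Submodule.fg_span_iff_fg_span_finset_subset
    {f : MvPolynomial ι k | ∃ χ e i, Prp A.I ψ χ e ∧ χ i = f}).1 (IsNoetherian.noetherian
      (R := MvPolynomial ι k) _)
  choose χ e i hχ hi using fun t : s => hs t.2
  refine ⟨s × ι, inferInstance, Finset.univ.sup e,
    fun t l => X t.2 ^ (Finset.univ.sup e + 1 - e t.1) * χ t.1 l, fun t => ⟨fun l => ?_,
      fun l m => ?_⟩, ?_⟩
  · have h := (isHomogeneous_X_pow t.2 (Finset.univ.sup e + 1 - e t.1)).mul ((hχ t.1).hom l)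
    rwa [Nat.sub_add_cancel ((Finset.le_sup (Finset.mem_univ t.1)).trans (Nat.le_succ _))] at h
  · rw [mul_assoc, mul_assoc, ← mul_sub]
    exact A.I.mul_mem_left _ ((hχ t.1).prp l m)
  rw [Ideal.height_eq_inf_minimalPrimes]
  refine le_iInf₂ fun 𝔭 h𝔭 => not_lt.1 fun h => ?_
  have := h𝔭.isPrime
  have := A.tr_prime
  rw [ENat.lt_two_iff] at h
  obtain ⟨a, ha⟩ := exists_X hσ hr 𝔭 h
  obtain ⟨ψ', e', h1, l, hl⟩ := rep_at A.hom 𝔭 (val_at hσ 𝔭 h ha) hψ h0
  have h2 : Ideal.span (s : Set (MvPolynomial ι k)) ≤ 𝔭.comap (Ideal.Quotient.mk A.I) :=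
    Ideal.span_le.2 fun f hf => by
      have h3 := h𝔭.1.2 (Ideal.mem_map_of_mem _ (Ideal.subset_span ⟨((⟨f, hf⟩, a), i ⟨f, hf⟩), rfl⟩))
      simp only [map_mul, map_pow, hi] at h3
      exact (‹𝔭.IsPrime›.mem_or_mem h3).resolve_left fun h4 => ha (‹𝔭.IsPrime›.mem_of_pow_mem _ h4)
  exact hl (h2 (hsp.le (Submodule.subset_span ⟨ψ', e', l, h1, rfl⟩)))

end

end Pool.Agent.Lib.MP_651af7_nt.Bx
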