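import Pool.Agent.Lib.MP_651af7_nt.Bx.Min
import Pool.Agent.Lib.MP_651af7_nt.Bx.Bir
import Pool.Agent.Lib.MP_651af7_nt.Bx.Rep

/-! Wronskians. -/

namespace Pool.Agent.Lib.MP_651af7_nt.Bx

open MvPolynomial Module Av Height

set_option linter.unusedSectionVars false

noncomputable section

variable {k : Type} [Field k] [CharZero k] {ι κ : Type} [Fintype ι] [Fintype κ] {r : ℕ}
  {A : AV k ι} {σ : Fin r → ι → k} {ψ ψ' : κ → MvPolynomial ι k} {y : ι → k}

/-- The Wronskian forms. -/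
def wr (A : AV k ι) (σ : Fin r → ι → k) (ψ : κ → MvPolynomial ι k) (b : ι) :
    (Fin (r + 1) → κ) → MvPolynomial ι k :=
  minors (Fin.cons ψ fun j i => dP (X : ι → MvPolynomial ι k) (vf A (σ j) b) (ψ i))

/-- The tangent frame at the image point. -/
def fr (ψ : κ → MvPolynomial ι k) (y : ι → k) (w : Fin r → ι → k) : Fin (r + 1) → κ → k :=
  Fin.cons (fun i => aeval y (ψ i)) fun j i => dP y (w j) (ψ i)

/-- `minors_hom`, `dP_eq_sum`, `vf_hom`, `IsHomogeneous.pderiv`. -/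
theorem wr_hom {d : ℕ} (h : ∀ i, (ψ i).IsHomogeneous (d + 1)) (b : ι) (S : Fin (r + 1) → κ) :
    (wr A σ ψ b S).IsHomogeneous (d + 1 + r * (d + 2)) := by
  have h1 := minors_hom (δ := Fin.cons (d + 1) fun _ : Fin r => d + 2)
    (b := Fin.cons ψ fun j i => dP (X : ι → MvPolynomial ι k) (vf A (σ j) b) (ψ i)) (fun j a => by
      refine Fin.cases (h a) (fun j => ?_) j
      simp only [Fin.cons_succ]
      rw [dP_eq_sum]
      refine IsHomogeneous.sum _ _ _ fun c _ => ?_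
      rw [aeval_X_left_apply]
      exact (h a).pderiv.mul (vf_hom _ _ _)) S
  rwa [Fin.sum_univ_succ, Fin.cons_zero, Finset.sum_congr rfl fun j _ => Fin.cons_succ _ _ j,
    Finset.sum_const, Finset.card_univ, Fintype.card_fin, smul_eq_mul] at h1

/-- Evaluate and differentiate `Prp.prp` (`dP_mul_pol`), divide by a non-zero `aeval y (ψ l)`. -/
theorem Prp.val {J : Ideal (MvPolynomial ι k)} {e : ℕ} (h : Prp J ψ ψ' e)
    (hy : ∀ P ∈ J, aeval y P = 0) (h0 : (fun i => aeval y (ψ i)) ≠ 0) :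
    ∃ s : k, (∀ i, aeval y (ψ' i) = s * aeval y (ψ i)) ∧ ∀ w ∈ tsp J y, ∃ ν : k,
      ∀ i, dP y w (ψ' i) = s * dP y w (ψ i) + ν * aeval y (ψ i) := by
  obtain ⟨l, hl⟩ := Function.ne_iff.1 h0
  have hl' : aeval y (ψ l) ≠ 0 := hl
  have h1 : ∀ i, aeval y (ψ' i) = aeval y (ψ' l) / aeval y (ψ l) * aeval y (ψ i) := fun i => by
    have h2 := hy _ (h.prp i l)
    rw [map_sub, map_mul, map_mul, sub_eq_zero] at h2
    field_simp
    exact h2
  refine ⟨_, h1, fun w hw => ⟨(dP y w (ψ' l) - aeval y (ψ' l) / aeval y (ψ l) * dP y w (ψ l)) /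
    aeval y (ψ l), fun i => ?_⟩⟩
  have h2 := dP_add_pol y w (ψ' i * ψ l - ψ' l * ψ i) (ψ' l * ψ i)
  rw [sub_add_cancel, mem_tsp.1 hw _ (h.prp i l), zero_add, dP_mul_pol, dP_mul_pol, h1 i] at h2
  field_simp at h2 ⊢
  linear_combination h2

/-- `map_minors`, `map_dP`, `dP_lin`, `dP_self`, `minors_tri`. -/
theorem wr_val {e : ℕ} (hψ : ∀ i, (ψ' i).IsHomogeneous e) {c s : k} {w : Fin r → ι → k}
    {μ : ι → Fin r → k} (h1 : ∀ b j a, aeval y (vf A (σ j) b a) = c * y b * w j a + μ b j * y a)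
    (h2 : ∀ i, aeval y (ψ' i) = s * aeval y (ψ i))
    (h3 : ∀ j, ∃ ν : k, ∀ i, dP y (w j) (ψ' i) = s * dP y (w j) (ψ i) + ν * aeval y (ψ i)) (b : ι)
    (S : Fin (r + 1) → κ) :
    aeval y (wr A σ ψ' b S) = c ^ r * (y b ^ r * (s ^ (r + 1) * minors (fr ψ y w) S)) := by
  choose ν hν using h3
  have h4 := map_minors (aeval y : MvPolynomial ι k →ₐ[k] k).toRingHom
    (Fin.cons ψ' fun j i => dP (X : ι → MvPolynomial ι k) (vf A (σ j) b) (ψ' i)) S
  have h5 : (fun j a => (aeval y : MvPolynomial ι k →ₐ[k] k).toRingHom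
      ((Fin.cons ψ' fun j i => dP (X : ι → MvPolynomial ι k) (vf A (σ j) b) (ψ' i) :
        Fin (r + 1) → κ → MvPolynomial ι k) j a)) =
      Fin.cons (fun a => s * aeval y (ψ a)) fun j a => c * y b * s * dP y (w j) (ψ a) +
        (c * y b * ν j + μ b j * e * s) * aeval y (ψ a) := by
    funext j a
    refine Fin.cases (h2 a) (fun j => ?_) j
    have h6 : (fun t => aeval y (vf A (σ j) b t)) = (c * y b) • w j + μ b j • y :=
      funext fun t => h1 b j t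
    have h7 := map_dP (aeval y : MvPolynomial ι k →ₐ[k] k) X (vf A (σ j) b) (ψ' a)
    simp only [aeval_X] at h7
    rw [h6, dP_lin, dP_smul, dP_self (hψ a), hν, h2] at h7
    refine h7.trans ?_
    simp only [Fin.cons_succ]
    ring
  rw [h5, minors_tri] at h4
  refine h4.trans ?_
  rw [fr]
  ring

/-- `logHeight_eval_le'` for the family `(b, t, S) ↦ wr A σ (Ψ t) b S`; its value is
`c ^ r * (y b ^ r * (s t ^ (r + 1) * π S))` (`exists_frame`, `Prp.val`, `wr_val`), and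
`Ψ t i` has the value `s t * x i`; `logHeight_fun_mul_eq`, `logHeight_pow`,
`logHeight_smul_eq_logHeight`. -/
theorem hK_le [NumberField k] (hσ : A.LieBasis σ) {T : Type} [Fintype T] {d : ℕ}
    {Ψ : T → κ → MvPolynomial ι k} (hΨ : ∀ t, Prp A.I ψ (Ψ t) (d + 1)) : ∃ C : ℝ, ∀ y : ι → k,
      y ≠ 0 → (∀ P ∈ A.I, aeval y P = 0) → (fun i => aeval y (ψ i)) ≠ 0 →
      (fun p : T × κ => eval y (Ψ p.1 p.2)) ≠ 0 → ∃ w : Fin r → ι → k, (∀ j, w j ∈ A.Tan y) ∧
        LinearIndependent k (Fin.cons y w : Fin (r + 1) → ι → k) ∧ (minors (fr ψ y w) ≠ 0 →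
          hK (fun i => aeval y (ψ i)) (fr ψ y w) ≤ (r + 1) * (((d + 1 : ℕ) : ℝ) * logHeight y -
            logHeight fun p : T × κ => eval y (Ψ p.1 p.2)) + C) := by
  obtain ⟨C, hC⟩ := logHeight_eval_le'
    (p := fun q : ι × T × (Fin (r + 1) → κ) => wr A σ (Ψ q.2.1) q.1 q.2.2)
    fun q => wr_hom (hΨ q.2.1).hom q.1 q.2.2
  refine ⟨C, fun y h0 hy hx hs => ?_⟩
  obtain ⟨c, w, μ, hc, hw, hi, -, h1⟩ := exists_frame hσ h0 hy
  refine ⟨w, hw, hi, fun hπ => ?_⟩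
  choose s h2 h3 using fun t => (hΨ t).val hy hx
  have h4 : (fun p : T × κ => eval y (Ψ p.1 p.2)) = fun p => s p.1 * aeval y (ψ p.2) :=
    funext fun p => h2 p.1 p.2
  have h5 : s ≠ 0 := fun h => hs (h4.trans (funext fun p => by rw [h]; exact zero_mul _))
  have h6 : ∀ {α : Type} {z : α → k} (n : ℕ), z ≠ 0 → z ^ n ≠ 0 := fun n hz =>
    Function.ne_iff.2 ((Function.ne_iff.1 hz).imp fun _ h => pow_ne_zero n h)
  have h7 : (fun q : T × (Fin (r + 1) → κ) => (s ^ (r + 1)) q.1 * minors (fr ψ y w) q.2) ≠ 0 := by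
    obtain ⟨t, ht⟩ := Function.ne_iff.1 (h6 (r + 1) h5)
    obtain ⟨S, hS⟩ := Function.ne_iff.1 hπ
    exact Function.ne_iff.2 ⟨(t, S), mul_ne_zero ht hS⟩
  have h8 : (fun q : ι × T × (Fin (r + 1) → κ) => eval y (wr A σ (Ψ q.2.1) q.1 q.2.2)) =
      c ^ r • fun q => (y ^ r) q.1 * ((s ^ (r + 1)) q.2.1 * minors (fr ψ y w) q.2.2) :=
    funext fun q => wr_val (hΨ q.2.1).hom h1 (h2 _)
      (fun j => h3 _ _ (tsp_eq (A := A) y ▸ hw j)) q.1 q.2.2
  have h9 := hC y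
  rw [h8, logHeight_smul_eq_logHeight _ (pow_ne_zero _ hc), logHeight_fun_mul_eq (h6 r h0) h7,
    logHeight_fun_mul_eq (h6 _ h5) hπ, logHeight_pow, logHeight_pow] at h9
  rw [h4, logHeight_fun_mul_eq h5 hx, hK]
  push_cast at h9 ⊢
  linarith

end

end Pool.Agent.Lib.MP_651af7_nt.Bx
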